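import Mathlib

/-!
The finite-injury construction, abstractly.  A state is `((n, p), (m, L, o, D))`: the bits of `m`
below `n` are final, `p` is the requirement whose turn it is (a round goes from `p = n` down to
`p = 0`), the bits of `m` below `L` are promised to requirement `o`, and the bits of `D` mark the
requirements that have acted and were not injured since.
-/

namespace Pool.Agent.P.MP_0db899_lc

abbrev St : Type := (ℕ × ℕ) × (ℕ × ℕ × ℕ × ℕ)

def nextPtr (c : ℕ × ℕ) : ℕ × ℕ := cond (decide (c.2 = 0)) (c.1 + 1, c.1 + 1) (c.1, c.2 - 1)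

def allowed (S : St) : Bool :=
  !(S.2.2.2.2.testBit S.1.2) && (decide (S.2.2.1 ≤ S.1.1) || decide (S.1.2 < S.2.2.2.1))

def move (f : ℕ → ℕ → ℕ → Option (ℕ × ℕ)) (S : St) : Option (ℕ × ℕ) :=
  cond (allowed S) (f S.1.2 S.1.1 S.2.1) none

def step (f : ℕ → ℕ → ℕ → Option (ℕ × ℕ)) (S : St) : St :=
  (nextPtr S.1, ((move f S).map fun z =>
    (z.1, z.2, S.1.2, S.2.2.2.2 % 2 ^ S.1.2 + 2 ^ S.1.2)).getD S.2)

def st0 : St := ((0, 0), (0, 0, 0, 0))

def run (act : ℕ → ℕ → ℕ → ℕ → Option (ℕ × ℕ)) : ℕ → St
  | 0 => st0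
  | k + 1 => step (act k) (run act k)

theorem step_none {f : ℕ → ℕ → ℕ → Option (ℕ × ℕ)} {S : St} (h : move f S = none) :
    (step f S).2 = S.2 := by simp [step, h]

theorem step_some {f : ℕ → ℕ → ℕ → Option (ℕ × ℕ)} {S : St} {τ L : ℕ}
    (h : move f S = some (τ, L)) :
    (step f S).2 = (τ, L, S.1.2, S.2.2.2.2 % 2 ^ S.1.2 + 2 ^ S.1.2) := by simp [step, h]

theorem move_some {f : ℕ → ℕ → ℕ → Option (ℕ × ℕ)} {S : St} {z : ℕ × ℕ}
    (h : move f S = some z) : S.2.2.2.2.testBit S.1.2 = false ∧
      (S.2.2.1 ≤ S.1.1 ∨ S.1.2 < S.2.2.2.1) ∧ f S.1.2 S.1.1 S.2.1 = some z := by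
  unfold move at h
  cases ha : allowed S
  · simp [ha] at h
  · rw [ha] at h
    simp only [allowed, Bool.and_eq_true, Bool.not_eq_true', Bool.or_eq_true,
      decide_eq_true_eq] at ha
    exact ⟨ha.1, ha.2, by simpa using h⟩

theorem move_none {f : ℕ → ℕ → ℕ → Option (ℕ × ℕ)} {S : St} (h : move f S = none)
    (h1 : S.2.2.2.2.testBit S.1.2 = false) (h2 : S.2.2.1 ≤ S.1.1 ∨ S.1.2 < S.2.2.2.1) :
    f S.1.2 S.1.1 S.2.1 = none := by
  have ha : allowed S = true := by
    simp only [allowed, Bool.and_eq_true, Bool.not_eq_true', Bool.or_eq_true, decide_eq_true_eq]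
    exact ⟨h1, h2⟩
  simpa [move, ha] using h

theorem mark_lt (D : ℕ) {p q : ℕ} (h : q < p) :
    (D % 2 ^ p + 2 ^ p).testBit q = D.testBit q := by
  rw [Nat.add_comm, Nat.testBit_two_pow_add_gt h, Nat.testBit_mod_two_pow]
  simp [h]

theorem mark_self (D p : ℕ) : (D % 2 ^ p + 2 ^ p).testBit p = true := by
  rw [Nat.add_comm, Nat.testBit_two_pow_add_eq, Nat.testBit_mod_two_pow]
  simp

theorem mark_gt (D : ℕ) {p q : ℕ} (h : p < q) : (D % 2 ^ p + 2 ^ p).testBit q = false := by
  apply Nat.testBit_lt_two_pow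
  have h1 : D % 2 ^ p < 2 ^ p := Nat.mod_lt _ (by positivity)
  have h2 : 2 ^ (p + 1) ≤ 2 ^ q := Nat.pow_le_pow_right (by norm_num) h
  rw [pow_succ] at h2
  omega

section

variable (act : ℕ → ℕ → ℕ → ℕ → Option (ℕ × ℕ))

theorem ptr_succ (k : ℕ) : (run act (k + 1)).1 = nextPtr (run act k).1 := rfl

theorem ptr_zero {k : ℕ} (h : (run act k).1.2 = 0) :
    (run act (k + 1)).1 = ((run act k).1.1 + 1, (run act k).1.1 + 1) := by
  simp [ptr_succ, nextPtr, h]

theorem ptr_pos {k : ℕ} (h : (run act k).1.2 ≠ 0) :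
    (run act (k + 1)).1 = ((run act k).1.1, (run act k).1.2 - 1) := by
  simp [ptr_succ, nextPtr, h]

theorem ptr_le (k : ℕ) : (run act k).1.2 ≤ (run act k).1.1 ∧ (run act k).1.1 ≤ k := by
  induction k with
  | zero => simp [run, st0]
  | succ k ih =>
    by_cases h : (run act k).1.2 = 0
    · rw [ptr_zero act h]; exact ⟨le_rfl, by omega⟩
    · rw [ptr_pos act h]; exact ⟨by dsimp only; omega, by dsimp only; omega⟩

theorem len_succ (k : ℕ) : (run act k).1.1 ≤ (run act (k + 1)).1.1 := by
  by_cases h : (run act k).1.2 = 0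
  · rw [ptr_zero act h]; dsimp only; omega
  · rw [ptr_pos act h]

theorem len_mono : Monotone fun k => (run act k).1.1 := monotone_nat_of_le_succ (len_succ act)

theorem visit_same (d : ℕ) : ∀ k, d ≤ (run act k).1.2 →
    (run act (k + d)).1 = ((run act k).1.1, (run act k).1.2 - d) := by
  induction d with
  | zero => intro k _; rfl
  | succ d ih =>
    intro k h
    have h1 := ih k (by omega)
    have h2 : (run act (k + d)).1.2 ≠ 0 := by rw [h1]; dsimp only; omega
    rw [← Nat.add_assoc, ptr_pos act h2, h1]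
    dsimp only
    rw [Nat.sub_sub]

theorem visit_next (k : ℕ) : (run act (k + (run act k).1.2 + 1)).1 =
    ((run act k).1.1 + 1, (run act k).1.1 + 1) := by
  have h1 := visit_same act _ k le_rfl
  have h2 : (run act (k + (run act k).1.2)).1.2 = 0 := by rw [h1]; simp
  rw [ptr_zero act h2, h1]

/-- Every later position of the pointer is visited. -/
theorem visit (n p : ℕ) (hp : p ≤ n) : ∀ k, ((run act k).1.1 < n ∨
    ((run act k).1.1 = n ∧ p ≤ (run act k).1.2)) → ∃ k' ≥ k, (run act k').1 = (n, p) := by
  have same : ∀ k, (run act k).1.1 = n → p ≤ (run act k).1.2 →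
      ∃ k' ≥ k, (run act k').1 = (n, p) := by
    intro k h1 h2
    refine ⟨k + ((run act k).1.2 - p), by omega, ?_⟩
    rw [visit_same act _ k (by omega), h1]
    congr 1
    omega
  suffices H : ∀ d k, (run act k).1.1 + d + 1 = n → ∃ k' ≥ k, (run act k').1 = (n, p) by
    rintro k (h | ⟨h1, h2⟩)
    · exact H (n - (run act k).1.1 - 1) k (by omega)
    · exact same k h1 h2
  intro d
  induction d with
  | zero =>
    intro k h
    have h1 := visit_next act k
    obtain ⟨k', hk', e⟩ := same (k + (run act k).1.2 + 1) (by rw [h1]; dsimp only; omega)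
      (by rw [h1]; dsimp only; omega)
    exact ⟨k', by omega, e⟩
  | succ d ih =>
    intro k h
    have h1 := visit_next act k
    obtain ⟨k', hk', e⟩ := ih (k + (run act k).1.2 + 1) (by rw [h1]; dsimp only; omega)
    exact ⟨k', by omega, e⟩

theorem len_large (n k : ℕ) : ∃ k' ≥ k, n ≤ (run act k').1.1 := by
  by_cases h : (run act k).1.1 < n
  · obtain ⟨k', hk', e⟩ := visit act n 0 (Nat.zero_le _) k (Or.inl h)
    exact ⟨k', hk', by rw [e]⟩
  · exact ⟨k, le_rfl, by omega⟩

variable {act}
variable (hact : ∀ k q n m τ L, act k q n m = some (τ, L) →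
  (∀ i < n, τ.testBit i = m.testBit i) ∧ n < L)
include hact

theorem bits_succ (k i : ℕ) (hi : i < (run act k).1.1) :
    (run act (k + 1)).2.1.testBit i = (run act k).2.1.testBit i := by
  cases h : move (act k) (run act k) with
  | none => rw [show (run act (k + 1)).2 = _ from step_none h]
  | some z =>
    obtain ⟨τ, L⟩ := z
    rw [show (run act (k + 1)).2 = _ from step_some h]
    exact (hact _ _ _ _ _ _ (move_some h).2.2).1 i hi

theorem bits_stable {k k' i : ℕ} (hk : k ≤ k') (hi : i < (run act k).1.1) :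
    (run act k').2.1.testBit i = (run act k).2.1.testBit i := by
  induction k', hk using Nat.le_induction with
  | base => rfl
  | succ k' hk ih => rw [bits_succ hact k' i (lt_of_lt_of_le hi (len_mono act hk)), ih]

theorem exists_limit : ∃ B : ℕ → Bool, ∀ k, ∀ i < (run act k).1.1,
    B i = (run act k).2.1.testBit i := by
  choose κ _ hκ using fun i => len_large act (i + 1) 0
  refine ⟨fun i => (run act (κ i)).2.1.testBit i, fun k i hi => ?_⟩
  exact (bits_stable hact (le_max_left (κ i) k) (hκ i)).symm.trans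
    (bits_stable hact (le_max_right (κ i) k) hi)

/-- The promise `(τ, L)` made to `q` is alive or fulfilled at step `k`. -/
def Wit (act : ℕ → ℕ → ℕ → ℕ → Option (ℕ × ℕ)) (k q τ L : ℕ) : Prop :=
  (run act k).2.2.2.2.testBit q = true ∧
    ((L ≤ (run act k).1.1 ∧ ∀ i < L, (run act k).2.1.testBit i = τ.testBit i) ∨
      ((run act k).2.1 = τ ∧ (run act k).2.2.1 = L ∧ (run act k).2.2.2.1 = q))

theorem wit_succ {k q τ L : ℕ} (h : Wit act k q τ L)
    (hq : (run act k).1.2 < q → move (act k) (run act k) = none) : Wit act (k + 1) q τ L := by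
  obtain ⟨hD, hW⟩ := h
  have hW' : (L ≤ (run act k).1.1 ∧ ∀ i < L, (run act k).2.1.testBit i = τ.testBit i) ∨
      ((run act k).1.1 < L ∧ (run act k).2.1 = τ ∧ (run act k).2.2.1 = L ∧
        (run act k).2.2.2.1 = q) := by
    rcases hW with h1 | h1
    · exact Or.inl h1
    · by_cases h2 : L ≤ (run act k).1.1
      · exact Or.inl ⟨h2, fun i _ => by rw [h1.1]⟩
      · exact Or.inr ⟨by omega, h1⟩
  cases hm : move (act k) (run act k) with
  | none =>
    have e : (run act (k + 1)).2 = _ := step_none hm
    refine ⟨by rw [e]; exact hD, ?_⟩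
    rcases hW' with h1 | h1
    · exact Or.inl ⟨h1.1.trans (len_succ act k), by rw [e]; exact h1.2⟩
    · exact Or.inr (by rw [e]; exact h1.2)
  | some z =>
    obtain ⟨τ', L'⟩ := z
    have e : (run act (k + 1)).2 = _ := step_some hm
    obtain ⟨m1, m2, m3⟩ := move_some hm
    have hlt : q < (run act k).1.2 := by
      rcases lt_trichotomy q (run act k).1.2 with h1 | h1 | h1
      · exact h1
      · rw [← h1, hD] at m1; exact absurd m1 (by simp)
      · rw [hq h1] at hm; exact absurd hm (by simp)
    refine ⟨by rw [e]; dsimp only; rw [mark_lt _ hlt]; exact hD, ?_⟩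
    rcases hW' with h1 | h1
    · refine Or.inl ⟨h1.1.trans (len_succ act k), fun i hi => ?_⟩
      rw [bits_succ hact k i (lt_of_lt_of_le hi h1.1)]
      exact h1.2 i hi
    · exfalso
      obtain ⟨h1, _, h3, h4⟩ := h1
      omega

theorem wit_of_mark (q : ℕ) : ∀ k, (run act k).2.2.2.2.testBit q = true →
    ∃ k0 τ L, (run act k0).1.2 = q ∧ act k0 q (run act k0).1.1 (run act k0).2.1 = some (τ, L) ∧
      Wit act k q τ L := by
  intro k
  induction k with
  | zero => intro h; simp [run, st0] at h
  | succ k ih =>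
    intro h
    cases hm : move (act k) (run act k) with
    | none =>
      have e : (run act (k + 1)).2 = _ := step_none hm
      obtain ⟨k0, τ, L, h1, h2, h3⟩ := ih (by rw [← e]; exact h)
      exact ⟨k0, τ, L, h1, h2, wit_succ hact h3 fun _ => hm⟩
    | some z =>
      obtain ⟨τ', L'⟩ := z
      have e : (run act (k + 1)).2 = _ := step_some hm
      obtain ⟨m1, m2, m3⟩ := move_some hm
      rcases lt_trichotomy q (run act k).1.2 with h1 | h1 | h1
      · rw [e] at h
        dsimp only at h
        rw [mark_lt _ h1] at h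
        obtain ⟨k0, τ, L, h2, h3, h4⟩ := ih h
        exact ⟨k0, τ, L, h2, h3, wit_succ hact h4 fun h5 => absurd h5 (by omega)⟩
      · refine ⟨k, τ', L', h1.symm, by rw [h1]; exact m3, h, Or.inr ?_⟩
        rw [e]
        exact ⟨rfl, rfl, h1.symm⟩
      · rw [e] at h
        dsimp only at h
        rw [mark_gt _ h1] at h
        exact absurd h (by simp)

theorem wit_later {K q τ L : ℕ} (h : Wit act K q τ L)
    (hq : ∀ k ≥ K, (run act k).1.2 < q → move (act k) (run act k) = none) :
    ∀ k ≥ K, Wit act k q τ L := by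
  intro k hk
  induction k, hk using Nat.le_induction with
  | base => exact h
  | succ k hk ih => exact wit_succ hact ih (hq k hk)

theorem finite_injury (q : ℕ) :
    ∃ K, ∀ k ≥ K, (run act k).1.2 < q → move (act k) (run act k) = none := by
  induction q with
  | zero => exact ⟨0, fun k _ h => absurd h (Nat.not_lt_zero _)⟩
  | succ q ih =>
    obtain ⟨K, hK⟩ := ih
    by_cases h : ∃ k0 ≥ K, (run act k0).1.2 = q ∧ move (act k0) (run act k0) ≠ none
    · obtain ⟨k0, hk0, h1, h2⟩ := h
      obtain ⟨⟨τ, L⟩, hm⟩ := Option.ne_none_iff_exists'.1 h2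
      have e : (run act (k0 + 1)).2 = _ := step_some hm
      have hD : (run act (k0 + 1)).2.2.2.2.testBit q = true := by
        rw [e, h1]; exact mark_self _ _
      obtain ⟨k1, τ', L', _, _, h5⟩ := wit_of_mark hact q _ hD
      have h6 := wit_later hact h5 fun k hk => hK k (by omega)
      refine ⟨k0 + 1, fun k hk hp => ?_⟩
      rcases Nat.lt_succ_iff_lt_or_eq.1 hp with h7 | h7
      · exact hK k (by omega) h7
      · by_contra h8
        obtain ⟨z, hz⟩ := Option.ne_none_iff_exists'.1 h8
        have h9 := (move_some hz).1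
        rw [h7, (h6 k hk).1] at h9
        exact absurd h9 (by simp)
    · refine ⟨K, fun k hk hp => ?_⟩
      rcases Nat.lt_succ_iff_lt_or_eq.1 hp with h7 | h7
      · exact hK k hk h7
      · by_contra h8
        exact h ⟨k, hk, h7, h8⟩

/-- The outcome of requirement `q`: a promise made to it is kept, or from some step on it sees
nothing to act on and the bit it is shown is the final one. -/
theorem outcome {B : ℕ → Bool}
    (hB : ∀ k, ∀ i < (run act k).1.1, B i = (run act k).2.1.testBit i) (q : ℕ) :
    (∃ k τ L, act k q (run act k).1.1 (run act k).2.1 = some (τ, L) ∧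
      ∀ i < L, B i = τ.testBit i) ∨
    (∃ K, ∀ k ≥ K, ((run act k).1.2 = q → act k q (run act k).1.1 (run act k).2.1 = none) ∧
      ((run act k).1.2 ≤ q → ∀ i < (run act k).1.1 + 1, B i = (run act k).2.1.testBit i)) := by
  obtain ⟨K, hK⟩ := finite_injury hact (q + 1)
  by_cases h : ∃ k ≥ K, (run act k).2.2.2.2.testBit q = true
  · left
    obtain ⟨k1, hk1, hD⟩ := h
    obtain ⟨k0, τ, L, _, h2, h3⟩ := wit_of_mark hact q _ hD
    refine ⟨k0, τ, L, h2, fun i hi => ?_⟩
    obtain ⟨k2, hk2, h4⟩ := len_large act L k1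
    have h5 := wit_later hact h3 (fun k hk hp => hK k (by omega) (by omega)) k2 hk2
    rw [hB k2 i (lt_of_lt_of_le hi h4)]
    rcases h5.2 with h6 | h6
    · exact h6.2 i hi
    · rw [h6.1]
  · right
    have hD : ∀ k ≥ K, (run act k).2.2.2.2.testBit q = false := fun k hk => by
      by_contra h1
      exact h ⟨k, hk, by simpa using h1⟩
    have hfree : ∀ k ≥ K, (run act k).2.2.1 = (run act K).2.2.1 ∨ q < (run act k).2.2.2.1 := by
      intro k hk
      induction k, hk using Nat.le_induction with
      | base => exact Or.inl rfl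
      | succ k hk ih =>
        cases hm : move (act k) (run act k) with
        | none => rw [show (run act (k + 1)).2 = _ from step_none hm]; exact ih
        | some z =>
          obtain ⟨τ, L⟩ := z
          right
          rw [show (run act (k + 1)).2 = _ from step_some hm]
          by_contra h1
          have h2 : (run act k).1.2 < q + 1 := by dsimp only at h1; omega
          rw [hK k hk h2] at hm
          exact absurd hm (by simp)
    obtain ⟨K', hK', hL⟩ := len_large act (run act K).2.2.1 K
    refine ⟨K', fun k hk => ⟨fun hp => ?_, fun hp i hi => ?_⟩⟩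
    · have h1 := move_none (hK k (by omega) (by omega)) (by rw [hp]; exact hD k (by omega)) (by
        rcases hfree k (by omega) with h2 | h2
        · left; rw [h2]; exact hL.trans (len_mono act hk)
        · right; omega)
      rwa [hp] at h1
    · have h1 : ∀ d ≤ (run act k).1.2 + 1, (run act (k + d)).2 = (run act k).2 := by
        intro d
        induction d with
        | zero => intro _; rfl
        | succ d ih =>
          intro hd
          have h2 := visit_same act d k (by omega)
          have h3 := hK (k + d) (by omega) (by rw [h2]; dsimp only; omega)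
          rw [← Nat.add_assoc, show (run act (k + d + 1)).2 = _ from step_none h3, ih (by omega)]
      have h4 := visit_next act k
      rw [hB (k + (run act k).1.2 + 1) i (by rw [h4]; exact hi), Nat.add_assoc, h1 _ le_rfl]

end

end Pool.Agent.P.MP_0db899_lc
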