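import Pool.Agent.P.MP_0db899_lc.Data
import Pool.Agent.P.MP_0db899_lc.Injury

/-! The construction in real time, and the simulators. -/

namespace Pool.Agent.P.MP_0db899_lc

open Filter

variable {μ : RelBlum} (D : Data μ)

/-- The value of the oracle-free program `a` at `x`, as far as it is known at time `y`. -/
def val (a x y : ℕ) : ℕ := (D.w 0 a x y).getD 0

/-- Programs `a` and `e` have halted on all `x ≤ t` by time `y`. -/
def ready (a e t y : ℕ) : Bool :=
  !(bfind (fun x => cond ((D.w 0 a x y).isSome && (D.w 0 e x y).isSome) none (some 0))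
    (t + 1) : Option ℕ).isSome

/-- Diagonalise against a cheap oracle-free program `i` at `n`. -/
def actH (e y i n m : ℕ) : Option (ℕ × ℕ) :=
  (D.w 0 i n (val D e n y)).map fun v => (m % 2 ^ n + cond (decide (v = 0)) (2 ^ n) 0, n + 1)

/-- Look for an extension that makes the oracle program `j` wrong. -/
def actR (a t y j n m : ℕ) : Option (ℕ × ℕ) :=
  bfind (fun x => bfind (fun τ =>
    cond (decide (τ % 2 ^ n = m % 2 ^ n) && ((D.w τ j x t).isSome &&
      !decide ((D.w τ j x t).getD 0 = val D a x y))) (some (τ, n + 1 + D.u j x t)) none)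
    (2 ^ (n + D.u j x t))) (t + 1)

def actF (a e t y q n m : ℕ) : Option (ℕ × ℕ) :=
  cond (decide (q % 2 = 0)) (actH D e y (q / 2) n m) (actR D a t y (q / 2) n m)

/-- The construction as it stands at time `y`, with the time of its last step. -/
def proc (a e y : ℕ) : ℕ × St :=
  iter (0, st0) (fun y R => cond (ready D a e R.1 (y + 1))
    (y + 1, step (actF D a e R.1 (y + 1)) R.2) R) y

/-- The number of bits shown to requirement `q`. -/
def viewLen (q : ℕ) (S : St) : ℕ := cond (decide (S.1.2 ≤ q)) (S.1.1 + 1) S.1.1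

/-- Guess the value of oracle program `j` from the first `v` bits of `m`. -/
def guess (j v m x y : ℕ) : Option ℕ :=
  bfind (fun τ => cond (decide (τ % 2 ^ v = m % 2 ^ v)) (D.w τ j x y) none) (2 ^ (v + D.u j x y))

/-- The answer of the simulator at time `y`. -/
def ans (a e j tb K x y : ℕ) : Option ℕ :=
  cond (decide (x < K)) (some (cond (tb.testBit x) 1 0)) (cond (decide (y < x)) none
    (guess D j (viewLen (2 * j + 1) (proc D a e y).2) (proc D a e y).2.2.1 x y))

section
variable {α : Type} [Primcodable α]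

@[fun_prop] theorem c_val {a x y : α → ℕ} (ha : Computable a) (hx : Computable x)
    (hy : Computable y) : Computable fun r => val D (a r) (x r) (y r) := by
  unfold val; fun_prop

@[fun_prop] theorem c_ready {a e t y : α → ℕ} (ha : Computable a) (he : Computable e)
    (ht : Computable t) (hy : Computable y) :
    Computable fun r => ready D (a r) (e r) (t r) (y r) := by
  unfold ready
  refine c_not (c_isSome (c_bfind (f := fun r x => cond ((D.w 0 (a r) x (y r)).isSome &&
    (D.w 0 (e r) x (y r)).isSome) none (some 0)) ?_ (by fun_prop)))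
  fun_prop

@[fun_prop] theorem c_actH {e y i n m : α → ℕ} (he : Computable e) (hy : Computable y)
    (hi : Computable i) (hn : Computable n) (hm : Computable m) :
    Computable fun r => actH D (e r) (y r) (i r) (n r) (m r) := by
  unfold actH
  refine c_optMap (g := fun r v =>
    (m r % 2 ^ n r + cond (decide (v = 0)) (2 ^ n r) 0, n r + 1)) ?_ ?_
  · fun_prop
  · fun_prop

@[fun_prop] theorem c_actR {a t y j n m : α → ℕ} (ha : Computable a) (ht : Computable t)
    (hy : Computable y) (hj : Computable j) (hn : Computable n) (hm : Computable m) :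
    Computable fun r => actR D (a r) (t r) (y r) (j r) (n r) (m r) := by
  unfold actR
  refine c_bfind (f := fun r x => bfind (fun τ =>
    cond (decide (τ % 2 ^ n r = m r % 2 ^ n r) && ((D.w τ (j r) x (t r)).isSome &&
      !decide ((D.w τ (j r) x (t r)).getD 0 = val D (a r) x (y r))))
      (some (τ, n r + 1 + D.u (j r) x (t r))) none)
    (2 ^ (n r + D.u (j r) x (t r)))) ?_ (by fun_prop)
  refine c_bfind (f := fun (p : α × ℕ) τ =>
    cond (decide (τ % 2 ^ n p.1 = m p.1 % 2 ^ n p.1) && ((D.w τ (j p.1) p.2 (t p.1)).isSome &&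
      !decide ((D.w τ (j p.1) p.2 (t p.1)).getD 0 = val D (a p.1) p.2 (y p.1))))
      (some (τ, n p.1 + 1 + D.u (j p.1) p.2 (t p.1))) none) ?_ (by fun_prop)
  fun_prop

@[fun_prop] theorem c_actF {a e t y q n m : α → ℕ} (ha : Computable a) (he : Computable e)
    (ht : Computable t) (hy : Computable y) (hq : Computable q) (hn : Computable n)
    (hm : Computable m) :
    Computable fun r => actF D (a r) (e r) (t r) (y r) (q r) (n r) (m r) := by
  unfold actF; fun_prop

theorem c_step {f : α → ℕ → ℕ → ℕ → Option (ℕ × ℕ)} {S : α → St} (hS : Computable S)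
    (hf : Computable fun r => f r (S r).1.2 (S r).1.1 (S r).2.1) :
    Computable fun r => step (f r) (S r) := by
  have h1 : Computable fun r => nextPtr (S r).1 := by unfold nextPtr; fun_prop
  have h2 : Computable fun r => allowed (S r) := by unfold allowed; fun_prop
  have h3 : Computable fun r => move (f r) (S r) := c_cond h2 hf (c_const none)
  unfold step
  refine c_pair h1 (c_getD (c_optMap (g := fun r (z : ℕ × ℕ) =>
    (z.1, z.2, (S r).1.2, (S r).2.2.2.2 % 2 ^ (S r).1.2 + 2 ^ (S r).1.2)) h3 ?_) (c_snd hS))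
  fun_prop

@[fun_prop] theorem c_proc {a e y : α → ℕ} (ha : Computable a) (he : Computable e)
    (hy : Computable y) : Computable fun r => proc D (a r) (e r) (y r) := by
  unfold proc
  refine c_iter (h := fun r y (R : ℕ × St) => cond (ready D (a r) (e r) R.1 (y + 1))
    (y + 1, step (actF D (a r) (e r) R.1 (y + 1)) R.2) R) (c_const _) ?_ hy
  refine c_cond (by fun_prop) (c_pair (by fun_prop) ?_) (by fun_prop)
  exact c_step (f := fun p : α × ℕ × ℕ × St => actF D (a p.1) (e p.1) p.2.2.1 (p.2.1 + 1))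
    (S := fun p : α × ℕ × ℕ × St => p.2.2.2) (by fun_prop) (by fun_prop)

@[fun_prop] theorem c_viewLen {q : α → ℕ} {S : α → St} (hq : Computable q) (hS : Computable S) :
    Computable fun r => viewLen (q r) (S r) := by
  unfold viewLen; fun_prop

@[fun_prop] theorem c_guess {j v m x y : α → ℕ} (hj : Computable j) (hv : Computable v)
    (hm : Computable m) (hx : Computable x) (hy : Computable y) :
    Computable fun r => guess D (j r) (v r) (m r) (x r) (y r) := by
  unfold guess
  refine c_bfind (f := fun r τ => cond (decide (τ % 2 ^ v r = m r % 2 ^ v r))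
    (D.w τ (j r) (x r) (y r)) none) ?_ (by fun_prop)
  fun_prop

theorem c_ans {a e j tb K x y : α → ℕ} (ha : Computable a) (he : Computable e)
    (hj : Computable j) (htb : Computable tb) (hK : Computable K) (hx : Computable x)
    (hy : Computable y) :
    Computable fun r => ans D (a r) (e r) (j r) (tb r) (K r) (x r) (y r) := by
  unfold ans
  have h1 : Computable fun r => proc D (a r) (e r) (y r) := c_proc D ha he hy
  refine c_cond (by fun_prop) (by fun_prop) (c_cond (by fun_prop) (c_const none) ?_)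
  exact c_guess D hj (c_viewLen (by fun_prop) (c_snd h1)) (c_fst (c_snd (c_snd h1))) hx hy

end

theorem mod_eq_iff {τ m n : ℕ} :
    τ % 2 ^ n = m % 2 ^ n ↔ ∀ i < n, τ.testBit i = m.testBit i := by
  constructor
  · intro h i hi
    have := congrArg (fun z => z.testBit i) h
    simpa [Nat.testBit_mod_two_pow, hi] using this
  · intro h
    refine Nat.eq_of_testBit_eq fun i => ?_
    rw [Nat.testBit_mod_two_pow, Nat.testBit_mod_two_pow]
    by_cases hi : i < n
    · rw [h i hi]
    · simp [hi]

theorem exists_trunc (X : ℕ → Bool) (N : ℕ) : ∃ τ < 2 ^ N, Agree X τ N :=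
  ⟨Nat.ofBits fun i : Fin N => X i, Nat.ofBits_lt_two_pow _, fun i hi => by
    rw [Nat.testBit_ofBits_lt _ i hi]⟩

theorem ready_iff {a e t y : ℕ} : ready D a e t y = true ↔
    ∀ x ≤ t, (D.w 0 a x y).isSome = true ∧ (D.w 0 e x y).isSome = true := by
  simp only [ready, Bool.not_eq_true', Option.isSome_eq_false_iff, Option.isNone_iff_eq_none,
    bfind_eq_none, Nat.lt_succ_iff]
  refine forall₂_congr fun x _ => ?_
  cases (D.w 0 a x y).isSome <;> cases (D.w 0 e x y).isSome <;> simp

theorem actH_some {e y i n m τ L : ℕ} (h : actH D e y i n m = some (τ, L)) :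
    ∃ v, D.w 0 i n (val D e n y) = some v ∧ L = n + 1 ∧
      (∀ k < n, τ.testBit k = m.testBit k) ∧ τ.testBit n = decide (v = 0) := by
  obtain ⟨v, hv, h1⟩ := Option.map_eq_some_iff.1 h
  obtain ⟨rfl, rfl⟩ := Prod.mk.inj h1
  refine ⟨v, hv, rfl, fun k hk => ?_, ?_⟩
  · by_cases h0 : v = 0
    · simp only [h0, decide_true, cond_true]; exact mark_lt m hk
    · simp [h0, Nat.testBit_mod_two_pow, hk]
  · by_cases h0 : v = 0
    · simp only [h0, decide_true, cond_true]; exact mark_self m n
    · simp [h0, Nat.testBit_mod_two_pow]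

theorem actR_some {a t y j n m τ L : ℕ} (h : actR D a t y j n m = some (τ, L)) :
    ∃ x ≤ t, ∃ v, D.w τ j x t = some v ∧ v ≠ val D a x y ∧ L = n + 1 + D.u j x t ∧
      ∀ k < n, τ.testBit k = m.testBit k := by
  obtain ⟨x, hx, h1⟩ := bfind_some h
  obtain ⟨τ', _, h2⟩ := bfind_some h1
  cases hc : (decide (τ' % 2 ^ n = m % 2 ^ n) && ((D.w τ' j x t).isSome &&
      !decide ((D.w τ' j x t).getD 0 = val D a x y)))
  · simp [hc] at h2
  · rw [hc] at h2
    obtain ⟨rfl, rfl⟩ := Prod.mk.inj (Option.some.inj h2)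
    simp only [Bool.and_eq_true, decide_eq_true_eq, Bool.not_eq_true', decide_eq_false_iff_not]
      at hc
    obtain ⟨h3, h4, h5⟩ := hc
    obtain ⟨v, hv⟩ := Option.isSome_iff_exists.1 h4
    exact ⟨x, by omega, v, hv, by simpa [hv] using h5, rfl, mod_eq_iff.1 h3⟩

theorem actR_none {a t y j n m : ℕ} (h : actR D a t y j n m = none) {x τ v : ℕ} (hx : x ≤ t)
    (hτ : τ < 2 ^ (n + D.u j x t)) (hm : ∀ k < n, τ.testBit k = m.testBit k)
    (hv : D.w τ j x t = some v) : v = val D a x y := by
  have h1 := bfind_eq_none.1 (bfind_eq_none.1 h x (by omega)) τ hτ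
  by_contra h2
  simp [mod_eq_iff.2 hm, hv, h2] at h1

theorem actF_spec {a e t y q n m τ L : ℕ} (h : actF D a e t y q n m = some (τ, L)) :
    (∀ i < n, τ.testBit i = m.testBit i) ∧ n < L := by
  unfold actF at h
  cases hq : decide (q % 2 = 0)
  · rw [hq] at h
    obtain ⟨x, _, v, _, _, h1, h2⟩ := actR_some D h
    exact ⟨h2, by omega⟩
  · rw [hq] at h
    obtain ⟨v, _, h1, h2, _⟩ := actH_some D h
    exact ⟨h2, by omega⟩

theorem actF_even (a e t y i n m : ℕ) : actF D a e t y (2 * i) n m = actH D e y i n m := by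
  simp [actF]

theorem actF_odd (a e t y j n m : ℕ) : actF D a e t y (2 * j + 1) n m = actR D a t y j n m := by
  have h1 : (2 * j + 1) % 2 = 1 := by omega
  have h2 : (2 * j + 1) / 2 = j := by omega
  simp [actF, h1, h2]

theorem guess_some {j v m x y r : ℕ} (h : guess D j v m x y = some r) :
    ∃ τ, (∀ k < v, τ.testBit k = m.testBit k) ∧ D.w τ j x y = some r := by
  obtain ⟨τ, _, h1⟩ := bfind_some h
  by_cases h2 : τ % 2 ^ v = m % 2 ^ v
  · exact ⟨τ, mod_eq_iff.1 h2, by simpa [h2] using h1⟩
  · simp [h2] at h1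

theorem guess_isSome {j v m x y z : ℕ} {B : ℕ → Bool} (hB : ∀ k < v, B k = m.testBit k)
    (hz : z ∈ μ.Phi j B x) (hy : z ≤ y) : (guess D j v m x y).isSome = true := by
  obtain ⟨τ, hτ, hA⟩ := exists_trunc B (v + D.u j x y)
  have h1 : (μ.phi j B x).Dom := (μ.dom _ _ _).1 (Part.dom_iff_mem.2 ⟨z, hz⟩)
  have h2 := (D.spec B τ j x y _ (hA.mono (by omega))).2 ⟨⟨z, hy, hz⟩, Part.get_mem h1⟩
  cases h : guess D j v m x y with
  | some r => rfl
  | none =>
    have h3 := bfind_eq_none.1 h τ hτ
    have h4 : τ % 2 ^ v = m % 2 ^ v :=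
      mod_eq_iff.2 fun k hk => by rw [← hA k (by omega), hB k hk]
    simp [h4, h2] at h3

/-- A halting oracle-free computation is eventually seen, with its value. -/
theorem eventually_seen {i x v : ℕ} (h : v ∈ μ.phi i (fun _ => false) x) :
    ∀ᶠ y in atTop, D.w 0 i x y = some v := by
  obtain ⟨z, hz⟩ := Part.dom_iff_mem.1 ((μ.dom _ _ _).2 (Part.dom_iff_mem.2 ⟨v, h⟩))
  filter_upwards [eventually_ge_atTop z] with y hy
  exact (D.spec0 _ _ _ _).2 ⟨⟨z, hy, hz⟩, h⟩

theorem val_eq {i x y v : ℕ} (h : v ∈ μ.phi i (fun _ => false) x)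
    (hs : (D.w 0 i x y).isSome = true) : val D i x y = v := by
  obtain ⟨r, hr⟩ := Option.isSome_iff_exists.1 hs
  rw [val, hr, Option.getD_some]
  exact Part.mem_unique ((D.spec0 _ _ _ _).1 hr).2 h

/-- The times at which the construction makes a step. -/
theorem exists_schedule {a e : ℕ} (ha : ∀ x, (μ.phi a (fun _ => false) x).Dom)
    (he : ∀ x, (μ.phi e (fun _ => false) x).Dom) :
    ∃ T : ℕ → ℕ, StrictMono T ∧ (∀ k, ready D a e (T k) (T (k + 1)) = true) ∧
      ∀ y, ∃ k, T k ≤ y ∧ y < T (k + 1) ∧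
        proc D a e y = (T k, run (fun k => actF D a e (T k) (T (k + 1))) k) := by
  have hex : ∀ t, ∃ y, t < y ∧ ready D a e t y = true := by
    intro t
    have h1 : ∀ᶠ y in atTop, ∀ x ∈ Finset.range (t + 1),
        (D.w 0 a x y).isSome = true ∧ (D.w 0 e x y).isSome = true := by
      refine (Finset.eventually_all _).2 fun x _ => ?_
      filter_upwards [eventually_seen D (Part.get_mem (ha x)),
        eventually_seen D (Part.get_mem (he x))] with y h1 h2
      simp [h1, h2]
    obtain ⟨y, h2, h3⟩ := ((eventually_gt_atTop t).and h1).exists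
    exact ⟨y, h2, (ready_iff D).2 fun x hx => h3 x (Finset.mem_range.2 (by omega))⟩
  let T : ℕ → ℕ := iter 0 fun _ t => Nat.find (hex t)
  have hT : ∀ k, T (k + 1) = Nat.find (hex (T k)) := fun _ => rfl
  have h1 : ∀ k, T k < T (k + 1) ∧ ready D a e (T k) (T (k + 1)) = true := fun k =>
    Nat.find_spec (hex (T k))
  refine ⟨T, strictMono_nat_of_lt_succ fun k => (h1 k).1, fun k => (h1 k).2, fun y => ?_⟩
  induction y with
  | zero => exact ⟨0, le_rfl, (h1 0).1, rfl⟩
  | succ y ih =>
    obtain ⟨k, h2, h3, h4⟩ := ih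
    have h5 : proc D a e (y + 1) = cond (ready D a e (proc D a e y).1 (y + 1))
      (y + 1, step (actF D a e (proc D a e y).1 (y + 1)) (proc D a e y).2) (proc D a e y) := rfl
    rw [h4] at h5
    dsimp only at h5
    cases hr : ready D a e (T k) (y + 1)
    · refine ⟨k, by omega, ?_, by rw [h5, hr]; rfl⟩
      rcases Nat.lt_or_ge (y + 1) (T (k + 1)) with h6 | h6
      · exact h6
      · have h7 : T (k + 1) = y + 1 := by omega
        have h8 := (h1 k).2
        rw [h7, hr] at h8
        exact absurd h8 (by simp)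
    · have h6 : T (k + 1) ≤ y + 1 := by
        rw [hT]; exact Nat.find_min' _ ⟨by omega, hr⟩
      have h7 : T (k + 1) = y + 1 := by omega
      refine ⟨k + 1, by omega, by have := (h1 (k + 1)).1; omega, ?_⟩
      rw [h5, hr, ← h7]
      rfl

end Pool.Agent.P.MP_0db899_lc
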