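import Pool.Agent.P.MP_0db899_lc.Eff

/-! Computable truth tables for a relative Blum measure, and the combining lemma. -/

namespace Pool.Agent.P.MP_0db899_lc

open Filter

/-- `w τ j x y` is the value of the `j`-th functional at `x` if its cost is at most `y`, for every
oracle that agrees with the digits of `τ` below `u j x y`. -/
structure Data (μ : RelBlum) where
  u : ℕ → ℕ → ℕ → ℕ
  w : ℕ → ℕ → ℕ → ℕ → Option ℕ
  cu : Computable fun p : ℕ × ℕ × ℕ => u p.1 p.2.1 p.2.2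
  cw : Computable fun p : ℕ × ℕ × ℕ × ℕ => w p.1 p.2.1 p.2.2.1 p.2.2.2
  spec : ∀ X τ j x y v, Agree X τ (u j x y) →
    (w τ j x y = some v ↔ (∃ z ≤ y, z ∈ μ.Phi j X x) ∧ v ∈ μ.phi j X x)

theorem exists_data (μ : RelBlum) : Nonempty (Data μ) := by
  obtain ⟨M, hM, hMs⟩ := μ.dec
  have h1 : Eff fun X r => cond (decide ((Nat.unpair r).2 = 1))
      ((μ.phi (Nat.unpair (Nat.unpair r).1).1 X
        (Nat.unpair (Nat.unpair (Nat.unpair r).1).2).1).map fun v => v + 1) (Part.some 0) := by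
    have h2 := (μ.univ.eff.precomp (h := fun r => Nat.pair (Nat.unpair (Nat.unpair r).1).1
      (Nat.unpair (Nat.unpair (Nat.unpair r).1).2).1) (by fun_prop)).map
      (h := fun _ v => v + 1) (by fun_prop : Computable fun p : ℕ × ℕ => p.2 + 1)
    simp only [Nat.unpair_pair] at h2
    exact h2.branch (eff_of_computable (Computable.const 0)) (by fun_prop)
  have h3 := hM.eff.bind h1 (h := Nat.pair) Primrec₂.natPair.to_comp
  simp only [Nat.unpair_pair] at h3
  have key : ∀ X j x z r, r ∈ ((M X (Nat.pair j (Nat.pair x z))).bind fun a =>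
      cond (decide (a = 1)) ((μ.phi j X x).map fun v => v + 1) (Part.some 0)) ↔
      (z ∈ μ.Phi j X x ∧ ∃ v ∈ μ.phi j X x, v + 1 = r) ∨ (z ∉ μ.Phi j X x ∧ r = 0) := by
    intro X j x z r
    by_cases hz : z ∈ μ.Phi j X x
    · rw [(hMs j X x z).1 hz]; simp [hz]
    · rw [(hMs j X x z).2 hz]; simp [hz]
  obtain ⟨u, w, hu, hw, hs⟩ := h3.total (by
    intro X q
    have e : q = Nat.pair (Nat.unpair q).1 (Nat.pair (Nat.unpair (Nat.unpair q).2).1
        (Nat.unpair (Nat.unpair q).2).2) := by simp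
    generalize (Nat.unpair (Nat.unpair q).2).1 = x at e ⊢
    generalize (Nat.unpair (Nat.unpair q).2).2 = z at e ⊢
    generalize (Nat.unpair q).1 = j at e ⊢
    subst e
    refine Part.dom_iff_mem.2 ?_
    by_cases hz : z ∈ μ.Phi j X x
    · obtain ⟨v, hv⟩ := Part.dom_iff_mem.1 ((μ.dom j X x).1 (Part.dom_iff_mem.2 ⟨z, hz⟩))
      exact ⟨v + 1, (key X j x z _).2 (Or.inl ⟨hz, v, hv, rfl⟩)⟩
    · exact ⟨0, (key X j x z _).2 (Or.inr ⟨hz, rfl⟩)⟩)
  refine ⟨⟨fun j x y => bsum (fun z => u (Nat.pair j (Nat.pair x z))) (y + 1),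
    fun τ j x y => bfind (fun z => cond (decide (w τ (Nat.pair j (Nat.pair x z)) = 0)) none
      (some (w τ (Nat.pair j (Nat.pair x z)) - 1))) (y + 1), by fun_prop, ?_, ?_⟩⟩
  · have h4 : Computable fun p : (ℕ × ℕ × ℕ × ℕ) × ℕ =>
        w p.1.1 (Nat.pair p.1.2.1 (Nat.pair p.1.2.2.1 p.2)) := hw.comp (by fun_prop) (by fun_prop)
    exact c_bfind (f := fun (p : ℕ × ℕ × ℕ × ℕ) z =>
      cond (decide (w p.1 (Nat.pair p.2.1 (Nat.pair p.2.2.1 z)) = 0)) none
        (some (w p.1 (Nat.pair p.2.1 (Nat.pair p.2.2.1 z)) - 1)))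
      (c_cond (c_decEq h4 (c_const 0)) (c_const none) (c_some (c_sub h4 (c_const 1))))
      (by fun_prop)
  · intro X τ j x y v hA
    have h5 : ∀ z < y + 1, (z ∈ μ.Phi j X x ∧ ∃ v ∈ μ.phi j X x,
        v + 1 = w τ (Nat.pair j (Nat.pair x z))) ∨
        (z ∉ μ.Phi j X x ∧ w τ (Nat.pair j (Nat.pair x z)) = 0) := by
      intro z hz
      have h6 := hs X τ (Nat.pair j (Nat.pair x z))
        (hA.mono (le_bsum (fun z => u (Nat.pair j (Nat.pair x z))) hz))
      simp only [Nat.unpair_pair] at h6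
      exact (key X j x z _).1 h6
    have h7 : ∀ v', bfind (fun z => cond (decide (w τ (Nat.pair j (Nat.pair x z)) = 0)) none
        (some (w τ (Nat.pair j (Nat.pair x z)) - 1))) (y + 1) = some v' →
        (∃ z ≤ y, z ∈ μ.Phi j X x) ∧ v' ∈ μ.phi j X x := by
      intro v' h
      obtain ⟨z, hz, h8⟩ := bfind_some h
      rcases h5 z hz with ⟨h9, v'', h10, h11⟩ | ⟨_, h9⟩
      · rw [← h11] at h8
        have : v'' = v' := by simpa using h8
        exact ⟨⟨z, by omega, h9⟩, this ▸ h10⟩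
      · simp [h9] at h8
    refine ⟨h7 v, fun ⟨⟨z, hz, h8⟩, h9⟩ => ?_⟩
    cases h : bfind (fun z => cond (decide (w τ (Nat.pair j (Nat.pair x z)) = 0)) none
        (some (w τ (Nat.pair j (Nat.pair x z)) - 1))) (y + 1) with
    | some v' => rw [Part.mem_unique (h7 v' h).2 h9]
    | none =>
      have h10 := bfind_eq_none.1 h z (by omega)
      rcases h5 z (by omega) with ⟨_, v'', _, h11⟩ | ⟨h11, _⟩
      · rw [← h11] at h10; simp at h10
      · exact absurd h8 h11

section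
variable {μ : RelBlum} (D : Data μ) {α : Type} [Primcodable α]

@[fun_prop] theorem c_u {f g h : α → ℕ} (hf : Computable f) (hg : Computable g)
    (hh : Computable h) : Computable fun a => D.u (f a) (g a) (h a) :=
  D.cu.comp (g := fun a => (f a, g a, h a)) (hf.pair (hg.pair hh))

@[fun_prop] theorem c_w {e f g h : α → ℕ} (he : Computable e) (hf : Computable f)
    (hg : Computable g) (hh : Computable h) : Computable fun a => D.w (e a) (f a) (g a) (h a) :=
  D.cw.comp (g := fun a => (e a, f a, g a, h a)) (he.pair (hf.pair (hg.pair hh)))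

theorem Data.spec0 (j x y v : ℕ) : D.w 0 j x y = some v ↔
    (∃ z ≤ y, z ∈ μ.Phi j (fun _ => false) x) ∧ v ∈ μ.phi j (fun _ => false) x :=
  D.spec _ 0 j x y v fun i _ => by simp

end

/-- Every recursive function has an oracle-free index. -/
theorem exists_index (μ : RelBlum) {f : ℕ →. ℕ} (hf : Partrec f) :
    ∃ i, μ.phi i (fun _ => false) = f := by
  have h1 : Partrec fun n => f (Nat.unpair n).2 := hf.comp (by fun_prop)
  obtain ⟨s, _, hs⟩ := μ.smn _ (prfun_of_partrec (Partrec.nat_iff.1 h1))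
  exact ⟨s 0, funext fun x => by rw [hs]; simp⟩

/-- One recursive `g` bounds the cost of all simulators that answer in time. -/
theorem combine {μ : RelBlum} (D : Data μ) {Ans : ℕ → ℕ → ℕ → Option ℕ}
    (hA : Computable fun r : ℕ × ℕ × ℕ => Ans r.1 r.2.1 r.2.2) :
    ∃ (σ : ℕ → ℕ) (g : ℕ → ℕ → ℕ), Computable₂ g ∧
      (∀ p x, μ.phi (σ p) (fun _ => false) x = Nat.rfindOpt (Ans p x)) ∧
      ∀ p x y y', p ≤ x → y' ≤ max x y → (Ans p x y').isSome = true →
        ∃ z ∈ μ.Phi (σ p) (fun _ => false) x, z ≤ g x y := by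
  have h1 : Partrec fun n => Nat.rfindOpt (Ans (Nat.unpair n).1 (Nat.unpair n).2) :=
    Partrec.rfindOpt (f := fun n y => Ans (Nat.unpair n).1 (Nat.unpair n).2 y)
      (hA.comp (g := fun r : ℕ × ℕ => ((Nat.unpair r.1).1, (Nat.unpair r.1).2, r.2))
        (by fun_prop))
  obtain ⟨σ, hσ, hs⟩ := μ.smn _ (prfun_of_partrec (Partrec.nat_iff.1 h1))
  have hs' : ∀ p x, μ.phi (σ p) (fun _ => false) x = Nat.rfindOpt (Ans p x) := by
    intro p x; rw [hs]; simp
  let c : ℕ × ℕ × ℕ → ℕ → Bool := fun r z =>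
    !(bfind (Ans r.1 r.2.1) (max r.2.1 r.2.2 + 1)).isSome || (D.w 0 (σ r.1) r.2.1 z).isSome
  have hc : Computable fun q : (ℕ × ℕ × ℕ) × ℕ => c q.1 q.2 := by
    have h2 : Computable fun q : ((ℕ × ℕ × ℕ) × ℕ) × ℕ => Ans q.1.1.1 q.1.1.2.1 q.2 :=
      hA.comp (g := fun q : ((ℕ × ℕ × ℕ) × ℕ) × ℕ => (q.1.1.1, q.1.1.2.1, q.2)) (by fun_prop)
    have h3 : Computable fun q : (ℕ × ℕ × ℕ) × ℕ =>
        bfind (Ans q.1.1 q.1.2.1) (max q.1.2.1 q.1.2.2 + 1) :=
      c_bfind (f := fun q : (ℕ × ℕ × ℕ) × ℕ => Ans q.1.1 q.1.2.1) h2 (by fun_prop)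
    have h4 : Computable fun q : (ℕ × ℕ × ℕ) × ℕ => D.w 0 (σ q.1.1) q.1.2.1 q.2 := by fun_prop
    exact c_or (c_not (c_isSome h3)) (c_isSome h4)
  have hex : ∀ r, ∃ z, c r z = true := by
    intro r
    cases h : bfind (Ans r.1 r.2.1) (max r.2.1 r.2.2 + 1) with
    | none => exact ⟨0, by simp [c, h]⟩
    | some v =>
      obtain ⟨y', _, h5⟩ := bfind_some h
      have h6 : (μ.phi (σ r.1) (fun _ => false) r.2.1).Dom := by
        rw [hs']; exact Nat.rfindOpt_dom.2 ⟨y', v, h5⟩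
      obtain ⟨z, hz⟩ := Part.dom_iff_mem.1 ((μ.dom _ _ _).2 h6)
      refine ⟨z, ?_⟩
      simp [c, (D.spec0 _ _ z _).2 ⟨⟨z, le_rfl, hz⟩, Part.get_mem h6⟩]
  have hcost : Computable fun r => Nat.find (hex r) := computable_find hc hex
  refine ⟨σ, fun x y => bsum (fun p => Nat.find (hex (p, x, y))) (x + 1), ?_, hs', ?_⟩
  · have h2 : Computable fun q : (ℕ × ℕ) × ℕ => Nat.find (hex (q.2, q.1.1, q.1.2)) :=
      hcost.comp (g := fun q : (ℕ × ℕ) × ℕ => (q.2, q.1.1, q.1.2)) (by fun_prop)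
    exact c_bsum (f := fun (q : ℕ × ℕ) p => Nat.find (hex (p, q.1, q.2))) h2 (by fun_prop)
  · intro p x y y' hp hy' hsome
    have h5 := Nat.find_spec (hex (p, x, y))
    have h6 : (bfind (Ans p x) (max x y + 1)).isSome = true := by
      cases h : bfind (Ans p x) (max x y + 1) with
      | some v => rfl
      | none => rw [bfind_eq_none.1 h y' (by omega)] at hsome; exact absurd hsome (by simp)
    have h8 : Nat.find (hex (p, x, y)) ≤ bsum (fun p => Nat.find (hex (p, x, y))) (x + 1) :=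
      le_bsum (fun p => Nat.find (hex (p, x, y))) (Nat.lt_succ_of_le hp)
    have h9 : ∀ z, c (p, x, y) z = true → (D.w 0 (σ p) x z).isSome = true := by
      intro z hz
      simpa only [c, h6, Bool.not_true, Bool.false_or] using hz
    obtain ⟨v, hv⟩ := Option.isSome_iff_exists.1 (h9 _ h5)
    obtain ⟨⟨z, hz, h7⟩, _⟩ := (D.spec0 _ _ _ _).1 hv
    exact ⟨z, h7, hz.trans h8⟩

end Pool.Agent.P.MP_0db899_lc
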