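import Mathlib

/-!
Relative Blum measures.  A subset of `ℕ` is given by its indicator `ℕ → Bool`; it is recursive
when the indicator is `Computable`.  The empty oracle is `fun _ => false`.
-/

namespace Pool.Agent.P.MP_0db899_lc

/-- The characteristic function `c_A` of the set `A`, as a function `ℕ →. ℕ`. -/
def chi (A : ℕ → Bool) : ℕ →. ℕ := fun n => Part.some (cond (A n) 1 0)

/-- The functionals `X ↦ F X` that are recursive in the oracle `X` by one program for all `X`:
the clauses of Mathlib's `Nat.RecursiveIn`, with the oracle `c_X`, read uniformly in `X`. -/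
inductive PRFun : ((ℕ → Bool) → ℕ →. ℕ) → Prop
  | zero : PRFun fun _ _ => Part.some 0
  | succ : PRFun fun _ n => Part.some (n + 1)
  | left : PRFun fun _ n => Part.some (Nat.unpair n).1
  | right : PRFun fun _ n => Part.some (Nat.unpair n).2
  | oracle : PRFun fun X => chi X
  | pair {F G : (ℕ → Bool) → ℕ →. ℕ} : PRFun F → PRFun G →
      PRFun fun X n => (F X n).bind fun a => (G X n).map fun b => Nat.pair a b
  | comp {F G : (ℕ → Bool) → ℕ →. ℕ} : PRFun F → PRFun G →
      PRFun fun X n => (G X n).bind (F X)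
  | prec {F G : (ℕ → Bool) → ℕ →. ℕ} : PRFun F → PRFun G →
      PRFun fun X p => Nat.rec (motive := fun _ => Part ℕ) (F X (Nat.unpair p).1)
        (fun y IH => IH.bind fun i => G X (Nat.pair (Nat.unpair p).1 (Nat.pair y i)))
        (Nat.unpair p).2
  | rfind {F : (ℕ → Bool) → ℕ →. ℕ} : PRFun F →
      PRFun fun X a => Nat.rfind fun n => (F X (Nat.pair a n)).map fun m => decide (m = 0)

/-- A relative Blum measure: `phi i X` is the `i`-th functional with oracle `X` of an acceptable
enumeration (universal functional and s-m-n property), `Phi i X` its cost. -/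
structure RelBlum where
  phi : ℕ → (ℕ → Bool) → ℕ →. ℕ
  Phi : ℕ → (ℕ → Bool) → ℕ →. ℕ
  univ : PRFun fun X n => phi (Nat.unpair n).1 X (Nat.unpair n).2
  smn : ∀ F, PRFun F → ∃ s : ℕ → ℕ, Computable s ∧ ∀ a X x, phi (s a) X x = F X (Nat.pair a x)
  dom : ∀ i X x, (Phi i X x).Dom ↔ (phi i X x).Dom
  dec : ∃ M, PRFun M ∧ ∀ i X x y,
    (y ∈ Phi i X x → M X (Nat.pair i (Nat.pair x y)) = Part.some 1) ∧
    (y ∉ Phi i X x → M X (Nat.pair i (Nat.pair x y)) = Part.some 0)

/-- `Φ^B-Comp(A) >_ae t`: every index `i` with `φ_i^B = c_A` has `Φ_i^B(x) > t(x)` for all but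
finitely many `x`. -/
def CompGT (μ : RelBlum) (B A : ℕ → Bool) (t : ℕ → ℕ) : Prop :=
  ∀ i, μ.phi i B = chi A → ∀ᶠ x in Filter.cofinite, ∃ y ∈ μ.Phi i B x, t x < y

end Pool.Agent.P.MP_0db899_lc
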