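import Mathlib

/-! Closure lemmas for `Computable`, registered for `fun_prop`. -/

namespace Pool.Agent.P.MP_0db899_lc

attribute [fun_prop] Computable

variable {α β γ σ : Type} [Primcodable α] [Primcodable β] [Primcodable γ] [Primcodable σ]

@[fun_prop] theorem c_id : Computable fun a : α => a := Computable.id
@[fun_prop] theorem c_const (s : σ) : Computable fun _ : α => s := Computable.const s
@[fun_prop] theorem c_comp {f : β → σ} {g : α → β} (hf : Computable f) (hg : Computable g) :
    Computable fun a => f (g a) := hf.comp hg
@[fun_prop] theorem c_pair {f : α → β} {g : α → γ} (hf : Computable f) (hg : Computable g) :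
    Computable fun a => (f a, g a) := hf.pair hg
@[fun_prop] theorem c_fst {f : α → β × γ} (hf : Computable f) : Computable fun a => (f a).1 :=
  Computable.fst.comp hf
@[fun_prop] theorem c_snd {f : α → β × γ} (hf : Computable f) : Computable fun a => (f a).2 :=
  Computable.snd.comp hf
@[fun_prop] theorem c_add {f g : α → ℕ} (hf : Computable f) (hg : Computable g) :
    Computable fun a => f a + g a := Primrec.nat_add.to_comp.comp hf hg
@[fun_prop] theorem c_sub {f g : α → ℕ} (hf : Computable f) (hg : Computable g) :
    Computable fun a => f a - g a := Primrec.nat_sub.to_comp.comp hf hg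
@[fun_prop] theorem c_mul {f g : α → ℕ} (hf : Computable f) (hg : Computable g) :
    Computable fun a => f a * g a := Primrec.nat_mul.to_comp.comp hf hg
@[fun_prop] theorem c_div {f g : α → ℕ} (hf : Computable f) (hg : Computable g) :
    Computable fun a => f a / g a := Primrec.nat_div.to_comp.comp hf hg
@[fun_prop] theorem c_mod {f g : α → ℕ} (hf : Computable f) (hg : Computable g) :
    Computable fun a => f a % g a := Primrec.nat_mod.to_comp.comp hf hg
@[fun_prop] theorem c_pow {f g : α → ℕ} (hf : Computable f) (hg : Computable g) :
    Computable fun a => f a ^ g a :=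
  (Primrec₂.unpaired'.1 Nat.Primrec.pow).to_comp.comp hf hg
@[fun_prop] theorem c_max {f g : α → ℕ} (hf : Computable f) (hg : Computable g) :
    Computable fun a => max (f a) (g a) := Primrec.nat_max.to_comp.comp hf hg
@[fun_prop] theorem c_natPair {f g : α → ℕ} (hf : Computable f) (hg : Computable g) :
    Computable fun a => Nat.pair (f a) (g a) := Primrec₂.natPair.to_comp.comp hf hg
@[fun_prop] theorem c_unpair {f : α → ℕ} (hf : Computable f) :
    Computable fun a => Nat.unpair (f a) := Computable.unpair.comp hf
@[fun_prop] theorem c_cond {c : α → Bool} {f g : α → σ} (hc : Computable c) (hf : Computable f)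
    (hg : Computable g) : Computable fun a => cond (c a) (f a) (g a) := Computable.cond hc hf hg
@[fun_prop] theorem c_decLe {f g : α → ℕ} (hf : Computable f) (hg : Computable g) :
    Computable fun a => decide (f a ≤ g a) := Primrec.nat_le.decide.to_comp.comp hf hg
@[fun_prop] theorem c_decLt {f g : α → ℕ} (hf : Computable f) (hg : Computable g) :
    Computable fun a => decide (f a < g a) := Primrec.nat_lt.decide.to_comp.comp hf hg
@[fun_prop] theorem c_decEq {f g : α → ℕ} (hf : Computable f) (hg : Computable g) :
    Computable fun a => decide (f a = g a) := Primrec.eq.decide.to_comp.comp hf hg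
@[fun_prop] theorem c_and {f g : α → Bool} (hf : Computable f) (hg : Computable g) :
    Computable fun a => (f a && g a) := Primrec.and.to_comp.comp hf hg
@[fun_prop] theorem c_or {f g : α → Bool} (hf : Computable f) (hg : Computable g) :
    Computable fun a => (f a || g a) := Primrec.or.to_comp.comp hf hg
@[fun_prop] theorem c_not {f : α → Bool} (hf : Computable f) :
    Computable fun a => (!f a) := Primrec.not.to_comp.comp hf
@[fun_prop] theorem c_some {f : α → σ} (hf : Computable f) :
    Computable fun a => (some (f a) : Option σ) := Computable.option_some.comp hf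
@[fun_prop] theorem c_isSome {f : α → Option σ} (hf : Computable f) :
    Computable fun a => (f a).isSome := Primrec.option_isSome.to_comp.comp hf
@[fun_prop] theorem c_getD {f : α → Option σ} {g : α → σ} (hf : Computable f)
    (hg : Computable g) : Computable fun a => (f a).getD (g a) := Computable.option_getD hf hg
@[fun_prop] theorem c_optBind {f : α → Option β} {g : α → β → Option σ} (hf : Computable f)
    (hg : Computable fun p : α × β => g p.1 p.2) : Computable fun a => (f a).bind (g a) :=
  Computable.option_bind hf hg
@[fun_prop] theorem c_optMap {f : α → Option β} {g : α → β → σ} (hf : Computable f)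
    (hg : Computable fun p : α × β => g p.1 p.2) : Computable fun a => (f a).map (g a) :=
  Computable.option_map hf hg
@[fun_prop] theorem c_testBit {f g : α → ℕ} (hf : Computable f) (hg : Computable g) :
    Computable fun a => (f a).testBit (g a) := by
  have : Computable fun a => decide (f a / 2 ^ g a % 2 = 1) := by fun_prop
  exact this.of_eq fun a => by rw [Nat.testBit_eq_decide_div_mod_eq]

/-- Primitive recursion, as a plain function. -/
def iter (z : σ) (h : ℕ → σ → σ) : ℕ → σ
  | 0 => z
  | n + 1 => h n (iter z h n)

@[fun_prop] theorem c_iter {z : α → σ} {h : α → ℕ → σ → σ} {f : α → ℕ} (hz : Computable z)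
    (hh : Computable fun p : α × ℕ × σ => h p.1 p.2.1 p.2.2) (hf : Computable f) :
    Computable fun a => iter (z a) (h a) (f a) := by
  have := Computable.nat_rec (h := fun a (p : ℕ × σ) => h a p.1 p.2) hf hz hh
  refine this.of_eq fun a => ?_
  induction f a with
  | zero => rfl
  | succ n ih => simp only [iter, ← ih]

/-- Bounded search: some value of `f i` with `i < N`, if there is one. -/
def bfind (f : ℕ → Option σ) (N : ℕ) : Option σ :=
  iter none (fun i acc => cond acc.isSome acc (f i)) N

@[fun_prop] theorem c_bfind {f : α → ℕ → Option σ} {N : α → ℕ}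
    (hf : Computable fun p : α × ℕ => f p.1 p.2) (hN : Computable N) :
    Computable fun a => bfind (f a) (N a) := by
  unfold bfind
  have : Computable fun p : α × ℕ × Option σ => f p.1 p.2.1 :=
    hf.comp (g := fun p : α × ℕ × Option σ => (p.1, p.2.1)) (by fun_prop)
  fun_prop

omit [Primcodable σ] in
theorem bfind_eq_none {f : ℕ → Option σ} {N : ℕ} : bfind f N = none ↔ ∀ i < N, f i = none := by
  unfold bfind
  induction N with
  | zero => simp [iter]
  | succ n ih =>
    simp only [iter]
    constructor
    · intro h i hi
      cases hacc : iter none (fun i acc => cond acc.isSome acc (f i)) n with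
      | some v => simp [hacc] at h
      | none =>
        rw [hacc] at h
        rcases Nat.lt_succ_iff_lt_or_eq.1 hi with h1 | rfl
        · exact ih.1 hacc i h1
        · simpa using h
    · intro h
      rw [ih.2 fun i hi => h i (Nat.lt_succ_of_lt hi)]
      simpa using h n (Nat.lt_succ_self n)

omit [Primcodable σ] in
theorem bfind_some {f : ℕ → Option σ} {N : ℕ} {v : σ} (h : bfind f N = some v) :
    ∃ i < N, f i = some v := by
  unfold bfind at h
  induction N with
  | zero => simp [iter] at h
  | succ n ih =>
    simp only [iter] at h
    cases hacc : iter none (fun i acc => cond acc.isSome acc (f i)) n with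
    | some w =>
      rw [hacc] at h
      have hw : w = v := by simpa using h
      obtain ⟨i, hi, hv⟩ := ih (hw ▸ hacc)
      exact ⟨i, Nat.lt_succ_of_lt hi, hv⟩
    | none =>
      rw [hacc] at h
      exact ⟨n, Nat.lt_succ_self n, by simpa using h⟩

/-- A bound for all `f i` with `i < N`. -/
def bsum (f : ℕ → ℕ) (N : ℕ) : ℕ := iter 0 (fun i acc => acc + f i) N

@[fun_prop] theorem c_bsum {f : α → ℕ → ℕ} {N : α → ℕ}
    (hf : Computable fun p : α × ℕ => f p.1 p.2) (hN : Computable N) :
    Computable fun a => bsum (f a) (N a) := by
  unfold bsum
  have : Computable fun p : α × ℕ × ℕ => f p.1 p.2.1 :=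
    hf.comp (g := fun p : α × ℕ × ℕ => (p.1, p.2.1)) (by fun_prop)
  fun_prop

theorem le_bsum (f : ℕ → ℕ) {N i : ℕ} (hi : i < N) : f i ≤ bsum f N := by
  unfold bsum
  induction N with
  | zero => omega
  | succ n ih =>
    simp only [iter]
    rcases Nat.lt_succ_iff_lt_or_eq.1 hi with h1 | rfl
    · exact (ih h1).trans (Nat.le_add_right _ _)
    · exact Nat.le_add_left _ _

/-- Unbounded search for a witness that always exists. -/
theorem computable_find {p : α → ℕ → Bool} (hp : Computable fun q : α × ℕ => p q.1 q.2)
    (hex : ∀ a, ∃ n, p a n = true) : Computable fun a => Nat.find (hex a) := by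
  have h1 : Partrec fun a => Nat.rfind (fun n => (Part.some (p a n))) :=
    Partrec.rfind (p := fun a n => Part.some (p a n)) hp
  refine h1.of_eq_tot fun a => ?_
  refine Nat.mem_rfind.2 ⟨by simpa using Nat.find_spec (hex a), fun {m} hm => ?_⟩
  have := Nat.find_min (hex a) hm
  simpa using this

end Pool.Agent.P.MP_0db899_lc
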