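import Pool.Agent.P.MP_0db899_lc.Defs
import Pool.Agent.P.MP_0db899_lc.FP

/-! The use principle for functionals and a computable modulus for total functionals. -/

namespace Pool.Agent.P.MP_0db899_lc

open Filter

/-- The oracle `X` agrees with the binary digits of `τ` below `n`. -/
def Agree (X : ℕ → Bool) (τ n : ℕ) : Prop := ∀ i < n, X i = τ.testBit i

theorem Agree.mono {X : ℕ → Bool} {τ n m : ℕ} (h : Agree X τ n) (hm : m ≤ n) : Agree X τ m :=
  fun i hi => h i (lt_of_lt_of_le hi hm)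

theorem Agree.mod {X : ℕ → Bool} {τ n m : ℕ} (h : Agree X τ n) (hm : n ≤ m) :
    Agree X (τ % 2 ^ m) n := fun i hi => by
  rw [Nat.testBit_mod_two_pow, h i hi]
  simp [lt_of_lt_of_le hi hm]

theorem agree_self (τ n : ℕ) : Agree (fun i => τ.testBit i) τ n := fun _ _ => rfl

/-- `F` is given by a recursive family of finite approximations. -/
def Eff (F : (ℕ → Bool) → ℕ →. ℕ) : Prop :=
  ∃ ψ : ℕ × ℕ → ℕ →. ℕ, Partrec₂ ψ ∧
    (∀ n τ X q y, Agree X τ n → y ∈ ψ (n, τ) q → y ∈ F X q) ∧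
    (∀ X q y, y ∈ F X q → ∀ᶠ n in atTop, ∀ n' ≥ n, ∀ τ, Agree X τ n → y ∈ ψ (n', τ) q)

theorem eff_of_computable {f : ℕ → ℕ} (hf : Computable f) : Eff fun _ n => Part.some (f n) := by
  refine ⟨fun _ q => Part.some (f q), ?_, fun _ _ _ _ _ _ h => h,
    fun _ _ _ h => Eventually.of_forall fun _ _ _ _ _ => h⟩
  exact (hf.comp Computable.snd : Computable fun p : (ℕ × ℕ) × ℕ => f p.2)

theorem Eff.bind {F : (ℕ → Bool) → ℕ →. ℕ} {G : (ℕ → Bool) → ℕ →. ℕ} {h : ℕ → ℕ → ℕ}
    (hF : Eff F) (hG : Eff G) (hh : Computable₂ h) :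
    Eff fun X q => (F X q).bind fun a => G X (h q a) := by
  obtain ⟨ψ, hψ, s1, c1⟩ := hF
  obtain ⟨χ, hχ, s2, c2⟩ := hG
  refine ⟨fun r q => (ψ r q).bind fun a => χ r (h q a), ?_, ?_, ?_⟩
  · refine Partrec.bind hψ ?_
    have h1 : Computable fun p : ((ℕ × ℕ) × ℕ) × ℕ => h p.1.2 p.2 :=
      hh.comp (by fun_prop) (by fun_prop)
    exact hχ.comp (by fun_prop : Computable fun p : ((ℕ × ℕ) × ℕ) × ℕ => p.1.1) h1
  · intro n τ X q y hA hy
    obtain ⟨a, ha, hy⟩ := Part.mem_bind_iff.1 hy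
    exact Part.mem_bind_iff.2 ⟨a, s1 _ _ _ _ _ hA ha, s2 _ _ _ _ _ hA hy⟩
  · intro X q y hy
    obtain ⟨a, ha, hy⟩ := Part.mem_bind_iff.1 hy
    filter_upwards [c1 _ _ _ ha, c2 _ _ _ hy] with n h1 h2 n' hn τ hA
    exact Part.mem_bind_iff.2 ⟨a, h1 n' hn τ hA, h2 n' hn τ hA⟩

theorem Eff.map {F : (ℕ → Bool) → ℕ →. ℕ} {h : ℕ → ℕ → ℕ} (hF : Eff F) (hh : Computable₂ h) :
    Eff fun X q => (F X q).map (h q) := by
  obtain ⟨ψ, hψ, s1, c1⟩ := hF
  refine ⟨fun r q => (ψ r q).map (h q), ?_, ?_, ?_⟩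
  · refine Partrec.map hψ ?_
    exact (hh.comp (by fun_prop) (by fun_prop) :
      Computable fun p : ((ℕ × ℕ) × ℕ) × ℕ => h p.1.2 p.2)
  · intro n τ X q y hA hy
    obtain ⟨a, ha, rfl⟩ := (Part.mem_map_iff _).1 hy
    exact Part.mem_map _ (s1 _ _ _ _ _ hA ha)
  · intro X q y hy
    obtain ⟨a, ha, rfl⟩ := (Part.mem_map_iff _).1 hy
    filter_upwards [c1 _ _ _ ha] with n h1 n' hn τ hA
    exact Part.mem_map _ (h1 n' hn τ hA)

theorem Eff.precomp {F : (ℕ → Bool) → ℕ →. ℕ} {h : ℕ → ℕ} (hF : Eff F) (hh : Computable h) :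
    Eff fun X q => F X (h q) := by
  obtain ⟨ψ, hψ, s1, c1⟩ := hF
  refine ⟨fun r q => ψ r (h q), ?_, fun n τ X q y hA hy => s1 _ _ _ _ _ hA hy,
    fun X q y hy => c1 _ _ _ hy⟩
  exact hψ.comp (by fun_prop : Computable fun p : (ℕ × ℕ) × ℕ => p.1)
    (by fun_prop : Computable fun p : (ℕ × ℕ) × ℕ => h p.2)

theorem Eff.branch {F G : (ℕ → Bool) → ℕ →. ℕ} {c : ℕ → Bool} (hF : Eff F) (hG : Eff G)
    (hc : Computable c) : Eff fun X q => cond (c q) (F X q) (G X q) := by
  obtain ⟨ψ, hψ, s1, c1⟩ := hF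
  obtain ⟨χ, hχ, s2, c2⟩ := hG
  refine ⟨fun r q => cond (c q) (ψ r q) (χ r q), ?_, ?_, ?_⟩
  · exact Partrec.cond (by fun_prop : Computable fun p : (ℕ × ℕ) × ℕ => c p.2) hψ hχ
  · intro n τ X q y hA hy
    cases hq : c q
    · simp only [hq] at hy ⊢; exact s2 _ _ _ _ _ hA hy
    · simp only [hq] at hy ⊢; exact s1 _ _ _ _ _ hA hy
  · intro X q y hy
    cases hq : c q
    · simp only [hq] at hy ⊢; exact c2 _ _ _ hy
    · simp only [hq] at hy ⊢; exact c1 _ _ _ hy

theorem eff_oracle : Eff fun X => chi X := by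
  refine ⟨fun r q => ((cond (decide (q < r.1)) (some (cond (r.2.testBit q) 1 0)) none :
    Option ℕ) : Part ℕ), ?_, ?_, ?_⟩
  · exact Computable.ofOption (by fun_prop : Computable fun p : (ℕ × ℕ) × ℕ =>
      (cond (decide (p.2 < p.1.1)) (some (cond (p.1.2.testBit p.2) 1 0)) none : Option ℕ))
  · intro n τ X q y hA hy
    by_cases hq : q < n
    · simp only [hq, decide_true, cond_true, Part.coe_some, Part.mem_some_iff] at hy
      simp [chi, hA q hq, hy]
    · simp [hq] at hy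
  · intro X q y hy
    filter_upwards [eventually_gt_atTop q] with n hn n' hn' τ hA
    have hq : q < n' := lt_of_lt_of_le hn hn'
    simp only [chi, Part.mem_some_iff] at hy
    simp [hq, hy, hA q hn]

theorem Eff.prec {F G : (ℕ → Bool) → ℕ →. ℕ} (hF : Eff F) (hG : Eff G) :
    Eff fun X p => Nat.rec (motive := fun _ => Part ℕ) (F X (Nat.unpair p).1)
        (fun y IH => IH.bind fun i => G X (Nat.pair (Nat.unpair p).1 (Nat.pair y i)))
        (Nat.unpair p).2 := by
  obtain ⟨ψ, hψ, s1, c1⟩ := hF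
  obtain ⟨χ, hχ, s2, c2⟩ := hG
  refine ⟨fun r p => Nat.rec (motive := fun _ => Part ℕ) (ψ r (Nat.unpair p).1)
        (fun y IH => IH.bind fun i => χ r (Nat.pair (Nat.unpair p).1 (Nat.pair y i)))
        (Nat.unpair p).2, ?_, ?_, ?_⟩
  · have h1 : Partrec fun p : (ℕ × ℕ) × ℕ => ψ p.1 (Nat.unpair p.2).1 :=
      hψ.comp (by fun_prop) (by fun_prop)
    have h2 : Partrec₂ fun (p : (ℕ × ℕ) × ℕ) (z : ℕ × ℕ) =>
        χ p.1 (Nat.pair (Nat.unpair p.2).1 (Nat.pair z.1 z.2)) :=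
      hχ.comp (by fun_prop : Computable fun p : ((ℕ × ℕ) × ℕ) × (ℕ × ℕ) => p.1.1)
        (by fun_prop : Computable fun p : ((ℕ × ℕ) × ℕ) × (ℕ × ℕ) =>
          Nat.pair (Nat.unpair p.1.2).1 (Nat.pair p.2.1 p.2.2))
    exact Partrec.nat_rec (f := fun p : (ℕ × ℕ) × ℕ => (Nat.unpair p.2).2) (by fun_prop) h1 h2
  · intro n τ X q y hA
    dsimp only
    generalize (Nat.unpair q).2 = k
    induction k generalizing y with
    | zero => exact fun hy => s1 _ _ _ _ _ hA hy
    | succ k ih =>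
      intro hy
      obtain ⟨a, ha, hy⟩ := Part.mem_bind_iff.1 hy
      exact Part.mem_bind_iff.2 ⟨a, ih _ ha, s2 _ _ _ _ _ hA hy⟩
  · intro X q y
    dsimp only
    generalize (Nat.unpair q).2 = k
    induction k generalizing y with
    | zero => exact fun hy => c1 _ _ _ hy
    | succ k ih =>
      intro hy
      obtain ⟨a, ha, hy⟩ := Part.mem_bind_iff.1 hy
      filter_upwards [ih _ ha, c2 _ _ _ hy] with n h1 h2 n' hn τ hA
      exact Part.mem_bind_iff.2 ⟨a, h1 n' hn τ hA, h2 n' hn τ hA⟩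

theorem Eff.rfind {F : (ℕ → Bool) → ℕ →. ℕ} (hF : Eff F) :
    Eff fun X a => Nat.rfind fun n => (F X (Nat.pair a n)).map fun m => decide (m = 0) := by
  obtain ⟨ψ, hψ, s1, c1⟩ := hF
  refine ⟨fun r a => Nat.rfind fun n => (ψ r (Nat.pair a n)).map fun m => decide (m = 0),
    ?_, ?_, ?_⟩
  · refine Partrec.rfind (p := fun (p : (ℕ × ℕ) × ℕ) n =>
      (ψ p.1 (Nat.pair p.2 n)).map fun m => decide (m = 0)) ?_
    have h1 : Partrec fun p : ((ℕ × ℕ) × ℕ) × ℕ => ψ p.1.1 (Nat.pair p.1.2 p.2) :=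
      hψ.comp (by fun_prop) (by fun_prop)
    exact h1.map (by fun_prop : Computable fun p : (((ℕ × ℕ) × ℕ) × ℕ) × ℕ => decide (p.2 = 0))
  · intro n τ X q y hA hy
    obtain ⟨h1, h2⟩ := Nat.mem_rfind.1 hy
    refine Nat.mem_rfind.2 ⟨?_, fun {m} hm => ?_⟩
    · obtain ⟨a, ha, e⟩ := (Part.mem_map_iff _).1 h1
      exact (Part.mem_map_iff _).2 ⟨a, s1 _ _ _ _ _ hA ha, e⟩
    · obtain ⟨a, ha, e⟩ := (Part.mem_map_iff _).1 (h2 hm)
      exact (Part.mem_map_iff _).2 ⟨a, s1 _ _ _ _ _ hA ha, e⟩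
  · intro X q y hy
    obtain ⟨h1, h2⟩ := Nat.mem_rfind.1 hy
    obtain ⟨a, ha, e⟩ := (Part.mem_map_iff _).1 h1
    have h3 : ∀ᶠ n in atTop, ∀ m ∈ Finset.range y, ∀ n' ≥ n, ∀ τ, Agree X τ n →
        false ∈ (ψ (n', τ) (Nat.pair q m)).map fun m => decide (m = 0) := by
      refine (Finset.eventually_all _).2 fun m hm => ?_
      obtain ⟨b, hb, e'⟩ := (Part.mem_map_iff _).1 (h2 (Finset.mem_range.1 hm))
      filter_upwards [c1 _ _ _ hb] with n h n' hn τ hA
      exact (Part.mem_map_iff _).2 ⟨b, h n' hn τ hA, e'⟩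
    filter_upwards [c1 _ _ _ ha, h3] with n h4 h5 n' hn τ hA
    exact Nat.mem_rfind.2 ⟨(Part.mem_map_iff _).2 ⟨a, h4 n' hn τ hA, e⟩,
      fun {m} hm => h5 m (Finset.mem_range.2 hm) n' hn τ hA⟩

theorem PRFun.eff {F : (ℕ → Bool) → ℕ →. ℕ} (h : PRFun F) : Eff F := by
  induction h with
  | zero => exact eff_of_computable (Computable.const 0)
  | succ => exact eff_of_computable (by fun_prop)
  | left => exact eff_of_computable (by fun_prop)
  | right => exact eff_of_computable (by fun_prop)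
  | oracle => exact eff_oracle
  | @pair F G _ _ ihF ihG =>
    have h1 : Eff fun X q => (G X (Nat.unpair q).1).map fun b => Nat.pair (Nat.unpair q).2 b :=
      (ihG.precomp (h := fun q => (Nat.unpair q).1) (by fun_prop)).map
        (h := fun q b => Nat.pair (Nat.unpair q).2 b)
        (by fun_prop : Computable fun p : ℕ × ℕ => Nat.pair (Nat.unpair p.1).2 p.2)
    have h2 := ihF.bind h1 (h := Nat.pair) Primrec₂.natPair.to_comp
    simpa only [Nat.unpair_pair] using h2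
  | comp _ _ ihF ihG =>
    exact ihG.bind ihF (h := fun _ a => a) (by fun_prop : Computable fun p : ℕ × ℕ => p.2)
  | prec _ _ ihF ihG => exact ihF.prec ihG
  | rfind _ ih => exact ih.rfind

/-- Oracle-free recursive functions are functionals. -/
theorem prfun_of_partrec {f : ℕ →. ℕ} (hf : Nat.Partrec f) : PRFun fun _ => f := by
  induction hf with
  | zero => exact PRFun.zero
  | succ => exact PRFun.succ
  | left => exact PRFun.left
  | right => exact PRFun.right
  | @pair f g _ _ ihf ihg =>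
    have := PRFun.pair ihf ihg
    convert this using 3 with X n
    simp [Seq.seq, Part.bind_map]
  | comp _ _ ihf ihg => exact PRFun.comp ihf ihg
  | prec _ _ ihf ihg => exact PRFun.prec ihf ihg
  | rfind _ ih => exact PRFun.rfind ih

/-- Stages of a recursive function. -/
theorem exists_stage {α : Type} [Primcodable α] {f : α →. ℕ} (hf : Partrec f) :
    ∃ E : ℕ → α → Option ℕ, Computable₂ E ∧ (∀ k k' a y, k ≤ k' → E k a = some y → E k' a = some y) ∧
      ∀ a y, y ∈ f a ↔ ∃ k, E k a = some y := by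
  obtain ⟨c, hc⟩ := Nat.Partrec.Code.exists_code.1 hf
  refine ⟨fun k a => Nat.Partrec.Code.evaln k c (Encodable.encode a), ?_, ?_, ?_⟩
  · have := Nat.Partrec.Code.primrec_evaln.to_comp
    exact this.comp (g := fun p : ℕ × α => ((p.1, c), Encodable.encode p.2))
      ((Computable.fst.pair (Computable.const c)).pair (Computable.encode.comp Computable.snd))
  · intro k k' a y hk h
    exact Nat.Partrec.Code.evaln_mono hk h
  · intro a y
    have h1 : y ∈ c.eval (Encodable.encode a) ↔ y ∈ f a := by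
      rw [hc]; simp
    rw [← h1]
    exact Nat.Partrec.Code.evaln_complete

/-- Compactness of Cantor space, in the form needed here. -/
theorem cantor_uniform {U : ℕ → (ℕ → Bool) → Prop}
    (hloc : ∀ n X Y, (∀ i < n, X i = Y i) → U n X → U n Y)
    (hmono : ∀ n m X, n ≤ m → U n X → U m X) (hex : ∀ X, ∃ n, U n X) : ∃ n, ∀ X, U n X := by
  have hopen : ∀ n, IsOpen {X | U n X} := by
    intro n
    refine isOpen_iff_mem_nhds.2 fun X hX => ?_
    have h1 : ∀ᶠ Y in nhds X, ∀ i ∈ Finset.range n, Y i = X i := by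
      refine (Finset.eventually_all _).2 fun i _ => ?_
      have : ContinuousAt (fun Y : ℕ → Bool => Y i) X := (continuous_apply i).continuousAt
      exact this.eventually (p := fun b => b = X i)
        ((isOpen_discrete {b | b = X i}).mem_nhds rfl)
    exact h1.mono fun Y hY => hloc n X Y (fun i hi => (hY i (Finset.mem_range.2 hi)).symm) hX
  obtain ⟨n, hn⟩ := isCompact_univ.elim_directed_cover (fun n => {X | U n X}) hopen
    (fun X _ => Set.mem_iUnion.2 (hex X))
    (directed_of_isDirected_le fun n m h X hX => hmono n m X h hX)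
  exact ⟨n, fun X => hn (Set.mem_univ X)⟩

/-- A total functional has a computable modulus and a computable truth table. -/
theorem Eff.total {T : (ℕ → Bool) → ℕ →. ℕ} (hT : Eff T) (hdom : ∀ X q, (T X q).Dom) :
    ∃ (u : ℕ → ℕ) (w : ℕ → ℕ → ℕ), Computable u ∧ Computable₂ w ∧
      ∀ X τ q, Agree X τ (u q) → w τ q ∈ T X q := by
  obtain ⟨ψ, hψ, s1, c1⟩ := hT
  obtain ⟨E, hE, Emono, Espec⟩ := exists_stage hψ
  have hE' : Computable fun p : ℕ × (ℕ × ℕ) × ℕ => E p.1 p.2 := hE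
  let good : ℕ → ℕ → Bool := fun q r =>
    !(bfind (fun τ => cond (E (Nat.unpair r).2 (((Nat.unpair r).1, τ), q)).isSome none (some 0))
      (2 ^ (Nat.unpair r).1) : Option ℕ).isSome
  have hgood : Computable fun p : ℕ × ℕ => good p.1 p.2 := by
    have h1 : Computable fun p : (ℕ × ℕ) × ℕ =>
        E (Nat.unpair p.1.2).2 (((Nat.unpair p.1.2).1, p.2), p.1.1) :=
      hE.comp (by fun_prop) (by fun_prop)
    simp only [good]
    fun_prop
  have good_iff : ∀ q r, good q r = true ↔ ∀ τ < 2 ^ (Nat.unpair r).1,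
      (E (Nat.unpair r).2 (((Nat.unpair r).1, τ), q)).isSome = true := by
    intro q r
    simp only [good, Bool.not_eq_true', Option.isSome_eq_false_iff, Option.isNone_iff_eq_none,
      bfind_eq_none]
    refine forall₂_congr fun τ _ => ?_
    cases (E (Nat.unpair r).2 (((Nat.unpair r).1, τ), q)).isSome <;> simp
  have hex : ∀ q, ∃ r, good q r = true := by
    intro q
    obtain ⟨n, hn⟩ := cantor_uniform
      (U := fun n X => ∀ n' ≥ n, ∀ τ, Agree X τ n → (ψ (n', τ) q).Dom)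
      (fun n X Y hXY h n' hn' τ hA => h n' hn' τ fun i hi => (hXY i hi).trans (hA i hi))
      (fun n m X hnm h n' hn' τ hA => h n' (le_trans hnm hn') τ (hA.mono hnm))
      (fun X => by
        obtain ⟨n, hn⟩ := (c1 X q _ (Part.get_mem (hdom X q))).exists
        exact ⟨n, fun n' hn' τ hA => Part.dom_iff_mem.2 ⟨_, hn n' hn' τ hA⟩⟩)
    have h1 : ∀ᶠ k in atTop, ∀ τ ∈ Finset.range (2 ^ n), (E k ((n, τ), q)).isSome = true := by
      refine (Finset.eventually_all _).2 fun τ _ => ?_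
      obtain ⟨y, hy⟩ := Part.dom_iff_mem.1 (hn _ n le_rfl τ (agree_self τ n))
      obtain ⟨k, hk⟩ := (Espec ((n, τ), q) y).1 hy
      filter_upwards [eventually_ge_atTop k] with k' hk'
      simp [Emono k k' _ y hk' hk]
    obtain ⟨k, hk⟩ := h1.exists
    refine ⟨Nat.pair n k, (good_iff _ _).2 fun τ hτ => ?_⟩
    simp only [Nat.unpair_pair] at hτ ⊢
    exact hk τ (Finset.mem_range.2 hτ)
  have hr : Computable fun q => Nat.find (hex q) := computable_find hgood hex
  refine ⟨fun q => (Nat.unpair (Nat.find (hex q))).1, fun τ q =>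
    (E (Nat.unpair (Nat.find (hex q))).2 (((Nat.unpair (Nat.find (hex q))).1,
      τ % 2 ^ (Nat.unpair (Nat.find (hex q))).1), q)).getD 0, by fun_prop, ?_, ?_⟩
  · have h0 : Computable fun p : ℕ × ℕ => Nat.find (hex p.2) := hr.comp Computable.snd
    have h1 : Computable fun p : ℕ × ℕ =>
        E (Nat.unpair (Nat.find (hex p.2))).2 (((Nat.unpair (Nat.find (hex p.2))).1,
          p.1 % 2 ^ (Nat.unpair (Nat.find (hex p.2))).1), p.2) :=
      hE.comp (c_snd (c_unpair h0)) (c_pair (c_pair (c_fst (c_unpair h0))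
        (c_mod Computable.fst (c_pow (Computable.const 2) (c_fst (c_unpair h0))))) Computable.snd)
    exact c_getD h1 (Computable.const 0)
  · intro X τ q hA
    have h1 := (good_iff _ _).1 (Nat.find_spec (hex q))
      (τ % 2 ^ (Nat.unpair (Nat.find (hex q))).1) (Nat.mod_lt _ (by positivity))
    obtain ⟨y, hy⟩ := Option.isSome_iff_exists.1 h1
    simp only [hy, Option.getD_some]
    exact s1 _ _ X q y (hA.mod le_rfl) ((Espec (_, q) y).2 ⟨_, hy⟩)

end Pool.Agent.P.MP_0db899_lc
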