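import Pool.Agent.P.MP_0db899_lc.Constr

/-! Arbitrarily complex recursive oracles that do not help. -/

namespace Pool.Agent.P.MP_0db899_lc

open Filter

theorem nonhelping (μ : RelBlum) : ∃ g : ℕ → ℕ → ℕ, Computable₂ g ∧
    ∀ A : ℕ → Bool, Computable A → ∀ s : ℕ → ℕ, Computable s →
      ∃ B : ℕ → Bool, Computable B ∧ CompGT μ (fun _ => false) B s ∧
        ∀ t : ℕ → ℕ, CompGT μ (fun _ => false) A (fun x => g x (t x)) → CompGT μ B A t := by
  obtain ⟨D⟩ := exists_data μ
  obtain ⟨σ, g, hg, hσ, hcost⟩ := combine D (Ans := fun p x y => ans D (Nat.unpair p).1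
    (Nat.unpair (Nat.unpair p).2).1 (Nat.unpair (Nat.unpair (Nat.unpair p).2).2).1
    (Nat.unpair (Nat.unpair (Nat.unpair (Nat.unpair p).2).2).2).1
    (Nat.unpair (Nat.unpair (Nat.unpair (Nat.unpair p).2).2).2).2 x y)
    (c_ans D (by fun_prop) (by fun_prop) (by fun_prop) (by fun_prop) (by fun_prop) (by fun_prop)
      (by fun_prop))
  refine ⟨g, hg, fun A hA s hs => ?_⟩
  obtain ⟨a, ha⟩ := exists_index μ (f := chi A)
    (by fun_prop : Computable fun n => cond (A n) 1 0)
  obtain ⟨e, he⟩ := exists_index μ (f := fun n => Part.some (s n)) hs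
  have ha' : ∀ x, cond (A x) 1 0 ∈ μ.phi a (fun _ => false) x := fun x => by
    rw [ha]; exact Part.mem_some _
  have he' : ∀ x, s x ∈ μ.phi e (fun _ => false) x := fun x => by
    rw [he]; exact Part.mem_some _
  obtain ⟨T, hT, hready, hproc⟩ := exists_schedule D (a := a) (e := e)
    (fun x => Part.dom_iff_mem.2 ⟨_, ha' x⟩) (fun x => Part.dom_iff_mem.2 ⟨_, he' x⟩)
  set act : ℕ → ℕ → ℕ → ℕ → Option (ℕ × ℕ) := fun k => actF D a e (T k) (T (k + 1)) with hact_def
  have hact : ∀ k q n m τ L, act k q n m = some (τ, L) →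
      (∀ i < n, τ.testBit i = m.testBit i) ∧ n < L := fun k q n m τ L h => actF_spec D h
  have hvalA : ∀ k, ∀ x ≤ T k, val D a x (T (k + 1)) = cond (A x) 1 0 := fun k x hx =>
    val_eq D (ha' x) ((ready_iff D).1 (hready k) x hx).1
  have hvals : ∀ k, ∀ x ≤ T k, val D e x (T (k + 1)) = s x := fun k x hx =>
    val_eq D (he' x) ((ready_iff D).1 (hready k) x hx).2
  obtain ⟨B, hB⟩ := exists_limit hact
  refine ⟨B, ?_, ?_, ?_⟩
  · -- `B` is recursive
    have hex : ∀ i, ∃ y, decide (i < (proc D a e y).2.1.1) = true := by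
      intro i
      obtain ⟨k, _, hk⟩ := len_large act (i + 1) 0
      obtain ⟨k', _, h2, h3⟩ := hproc (T k)
      have h4 : k ≤ k' := Nat.lt_succ_iff.1 (hT.lt_iff_lt.1 h2)
      refine ⟨T k, ?_⟩
      rw [h3, decide_eq_true_eq]
      exact lt_of_lt_of_le hk (len_mono act h4)
    have h1 : Computable fun i => Nat.find (hex i) :=
      computable_find (p := fun i y => decide (i < (proc D a e y).2.1.1))
        (c_decLt Computable.fst (c_fst (c_fst (c_snd
          (c_proc D (c_const a) (c_const e) Computable.snd))))) hex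
    have h2 : Computable fun i => (proc D a e (Nat.find (hex i))).2.2.1.testBit i :=
      c_testBit (c_fst (c_snd (c_snd (c_proc D (c_const a) (c_const e) h1)))) Computable.id
    refine h2.of_eq fun i => ?_
    have h3 := Nat.find_spec (hex i)
    obtain ⟨k, _, _, h4⟩ := hproc (Nat.find (hex i))
    rw [h4, decide_eq_true_eq] at h3
    rw [h4]
    exact (hB k i h3).symm
  · -- `B` is hard
    intro i hi
    rcases outcome hact hB (2 * i) with ⟨k, τ, L, h1, h2⟩ | ⟨K, hK⟩
    · exfalso
      rw [hact_def] at h1
      dsimp only at h1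
      rw [actF_even] at h1
      obtain ⟨v, h3, h4, _, h5⟩ := actH_some D h1
      have h6 := ((D.spec0 _ _ _ _).1 h3).2
      rw [hi, chi, Part.mem_some_iff, h2 _ (by omega), h5] at h6
      by_cases h0 : v = 0
      · simp [h0] at h6
      · simp [h0] at h6
    · rw [Nat.cofinite_eq_atTop]
      filter_upwards [eventually_gt_atTop (run act K).1.1, eventually_ge_atTop (2 * i)]
        with n h1 h2
      obtain ⟨k, hk, h3⟩ := visit act n (2 * i) h2 K (Or.inl h1)
      have h4 := (hK k hk).1 (by rw [h3])
      have h5 : n ≤ T k := by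
        have := (ptr_le act k).2
        rw [h3] at this
        exact this.trans (hT.id_le k)
      rw [h3, hact_def] at h4
      dsimp only at h4
      rw [actF_even, actH, hvals k n h5, Option.map_eq_none_iff] at h4
      have h6 : cond (B n) 1 0 ∈ μ.phi i (fun _ => false) n := by
        rw [hi]; exact Part.mem_some _
      obtain ⟨z, hz⟩ := Part.dom_iff_mem.1 ((μ.dom _ _ _).2 (Part.dom_iff_mem.2 ⟨_, h6⟩))
      refine ⟨z, hz, ?_⟩
      by_contra h7
      rw [(D.spec0 _ _ _ _).2 ⟨⟨z, by omega, hz⟩, h6⟩] at h4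
      exact absurd h4 (by simp)
  · -- `B` does not help
    intro t hAt j hj
    have hj' : ∀ x, cond (A x) 1 0 ∈ μ.phi j B x := fun x => by
      rw [hj]; exact Part.mem_some _
    rcases outcome hact hB (2 * j + 1) with ⟨k, τ, L, h1, h2⟩ | ⟨K0, hK⟩
    · exfalso
      rw [hact_def] at h1
      dsimp only at h1
      rw [actF_odd] at h1
      obtain ⟨x, hx, v, h3, h4, h5, _⟩ := actR_some D h1
      have h6 := ((D.spec B τ j x (T k) v fun i hi => h2 i (by omega)).1 h3).2
      rw [hvalA k x hx] at h4
      exact h4 (Part.mem_unique h6 (hj' x))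
    · obtain ⟨K, hK0, hKn⟩ := len_large act (2 * j + 1) K0
      obtain ⟨tb, _, htb⟩ := exists_trunc A (T K)
      have hview : ∀ k ≥ K, ∀ i < viewLen (2 * j + 1) (run act k),
          B i = (run act k).2.1.testBit i := by
        intro k hk i hi
        by_cases hp : (run act k).1.2 ≤ 2 * j + 1
        · exact (hK k (by omega)).2 hp i (by simpa [viewLen, hp] using hi)
        · exact hB k i (by simpa [viewLen, hp] using hi)
      have hnext : ∀ k ≥ K, ∃ k' > k,
          (run act k').1 = (viewLen (2 * j + 1) (run act k), 2 * j + 1) := by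
        intro k hk
        have hn : 2 * j + 1 ≤ (run act k).1.1 := hKn.trans (len_mono act hk)
        by_cases hp : (run act k).1.2 ≤ 2 * j + 1
        · obtain ⟨k', h1, h2⟩ := visit act ((run act k).1.1 + 1) (2 * j + 1) (by omega) k
            (Or.inl (by omega))
          refine ⟨k', lt_of_le_of_ne h1 ?_, by simpa [viewLen, hp] using h2⟩
          rintro rfl
          have := congrArg Prod.fst h2
          simp at this
        · obtain ⟨k', h1, h2⟩ := visit act (run act k).1.1 (2 * j + 1) hn k
            (Or.inr ⟨rfl, by omega⟩)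
          refine ⟨k', lt_of_le_of_ne h1 ?_, by simpa [viewLen, hp] using h2⟩
          rintro rfl
          have := congrArg Prod.snd h2
          dsimp only at this
          omega
      have hlate : ∀ x y, T K ≤ x → x ≤ y → ∃ k ≥ K, y < T (k + 1) ∧
          ans D a e j tb (T K) x y =
            guess D j (viewLen (2 * j + 1) (run act k)) (run act k).2.1 x y := by
        intro x y h1 h2
        obtain ⟨k, _, h4, h5⟩ := hproc y
        refine ⟨k, Nat.lt_succ_iff.1 (hT.lt_iff_lt.1 (lt_of_le_of_lt (h1.trans h2) h4)), h4, ?_⟩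
        simp [ans, not_lt.2 h1, not_lt.2 h2, h5]
      have hright : ∀ x y r, ans D a e j tb (T K) x y = some r → r = cond (A x) 1 0 := by
        intro x y r h
        by_cases h1 : x < T K
        · simp only [ans, h1, decide_true, cond_true, Option.some.injEq] at h
          rw [← h, htb x h1]
        by_cases h2 : y < x
        · simp [ans, h1, h2] at h
        obtain ⟨k, hk, h3, h4⟩ := hlate x y (by omega) (by omega)
        rw [h4] at h
        obtain ⟨τ, h5, h6⟩ := guess_some D h
        obtain ⟨k', hk', h7⟩ := hnext k hk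
        have h8 : actR D a (T k') (T (k' + 1)) j (run act k').1.1 (run act k').2.1 = none := by
          rw [← actF_odd D a e]
          exact (hK k' (by omega)).1 (by rw [h7])
        have h9 : T (k + 1) ≤ T k' := hT.monotone hk'
        have h10 := (D.spec _ τ j x y r (agree_self _ _)).1 h6
        have h11 : D.w (τ % 2 ^ ((run act k').1.1 + D.u j x (T k'))) j x (T k') = some r := by
          refine (D.spec _ _ j x (T k') r ((agree_self τ _).mod (by omega))).2 ⟨?_, h10.2⟩
          obtain ⟨z, hz, h12⟩ := h10.1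
          exact ⟨z, by omega, h12⟩
        rw [← hvalA k' x (by omega)]
        refine actR_none D h8 (by omega) (Nat.mod_lt _ (by positivity)) (fun i hi => ?_) h11
        have h13 : i < viewLen (2 * j + 1) (run act k) := by
          have := congrArg Prod.fst h7
          dsimp only at this
          omega
        rw [Nat.testBit_mod_two_pow, h5 i h13, ← hview k hk i h13, ← hB k' i hi]
        simp [lt_of_lt_of_le hi (Nat.le_add_right _ _)]
      have hfast : ∀ x z, z ∈ μ.Phi j B x → (ans D a e j tb (T K) x (max x z)).isSome = true := by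
        intro x z hz
        by_cases h1 : x < T K
        · simp [ans, h1]
        obtain ⟨k, hk, _, h4⟩ := hlate x (max x z) (by omega) (le_max_left _ _)
        rw [h4]
        exact guess_isSome D (hview k hk) hz (le_max_right _ _)
      have hdom : ∀ x, ∃ z, z ∈ μ.Phi j B x := fun x =>
        Part.dom_iff_mem.1 ((μ.dom _ _ _).2 (Part.dom_iff_mem.2 ⟨_, hj' x⟩))
      set p := Nat.pair a (Nat.pair e (Nat.pair j (Nat.pair tb (T K)))) with hp
      have hσp := hσ p
      have hcostp := hcost p
      simp only [hp, Nat.unpair_pair] at hσp hcostp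
      rw [← hp] at hσp hcostp
      have hsim : μ.phi (σ p) (fun _ => false) = chi A := by
        funext x
        obtain ⟨z, hz⟩ := hdom x
        obtain ⟨r, hr⟩ := Option.isSome_iff_exists.1 (hfast x z hz)
        have h1 : (Nat.rfindOpt fun y => ans D a e j tb (T K) x y).Dom :=
          Nat.rfindOpt_dom.2 ⟨_, r, hr⟩
        obtain ⟨y, hy⟩ := Nat.rfindOpt_spec (Part.get_mem h1)
        rw [hσp x, chi, ← hright x y _ hy]
        exact (Part.some_get h1).symm
      have h1 := hAt (σ p) hsim
      rw [Nat.cofinite_eq_atTop] at h1 ⊢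
      filter_upwards [h1, eventually_ge_atTop p] with x h2 h3
      obtain ⟨z, hz⟩ := hdom x
      refine ⟨z, hz, ?_⟩
      by_contra h4
      obtain ⟨z', h5, h6⟩ := hcostp x (t x) (max x z) h3 (by omega) (hfast x z hz)
      obtain ⟨z'', h7, h8⟩ := h2
      have := Part.mem_unique h5 h7
      omega

end Pool.Agent.P.MP_0db899_lc
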