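import Pool.Agent.P.MP_0db899_lc.Constr

/-! Sanity check, not used by the hand-in: relative Blum measures exist. -/

namespace Pool.Agent.P.MP_0db899_lc

open Filter Nat.Partrec

def trunc (X : ℕ → Bool) : ℕ → ℕ
  | 0 => 0
  | n + 1 => trunc X n + 2 ^ n * cond (X n) 1 0

theorem trunc_spec (X : ℕ → Bool) (n : ℕ) : trunc X n < 2 ^ n ∧ Agree X (trunc X n) n := by
  induction n with
  | zero => exact ⟨by simp [trunc], fun i hi => absurd hi (Nat.not_lt_zero _)⟩
  | succ n ih =>
    have h1 : trunc X n % 2 ^ n = trunc X n := Nat.mod_eq_of_lt ih.1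
    cases h : X n
    · refine ⟨by simp only [trunc, h, pow_succ, cond_false]; omega, fun i hi => ?_⟩
      simp only [trunc, h, cond_false, mul_zero, add_zero]
      rcases Nat.lt_succ_iff_lt_or_eq.1 hi with h2 | rfl
      · exact ih.2 i h2
      · rw [h, Nat.testBit_lt_two_pow ih.1]
    · refine ⟨by simp only [trunc, h, pow_succ, cond_true]; omega, fun i hi => ?_⟩
      simp only [trunc, h, cond_true, mul_one]
      rw [← h1]
      rcases Nat.lt_succ_iff_lt_or_eq.1 hi with h2 | rfl
      · rw [mark_lt _ h2]; exact ih.2 i h2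
      · rw [h, mark_self]

theorem trunc_mod (X : ℕ → Bool) {n y : ℕ} (h : n ≤ y) : trunc X y % 2 ^ n = trunc X n := by
  rw [← Nat.mod_eq_of_lt (trunc_spec X n).1]
  exact mod_eq_iff.2 fun i hi => by
    rw [← (trunc_spec X y).2 i (by omega), ← (trunc_spec X n).2 i hi]

theorem prfun_comp {f : ℕ → ℕ} (hf : Computable f) : PRFun fun _ n => Part.some (f n) :=
  prfun_of_partrec (Partrec.nat_iff.1 hf)

/-- Total functionals: closure under a computable function of the input and one value. -/
theorem prfun_tot {G : (ℕ → Bool) → ℕ → ℕ} (hG : PRFun fun X n => Part.some (G X n))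
    {h : ℕ → ℕ} (hh : Computable h) {f : ℕ → ℕ →. ℕ} (hf : Partrec₂ f) :
    PRFun fun X n => f n (G X (h n)) := by
  have h1 := PRFun.pair (prfun_comp Computable.id) (PRFun.comp hG (prfun_comp hh))
  have h2 : Partrec fun r => f (Nat.unpair r).1 (Nat.unpair r).2 :=
    hf.comp (by fun_prop) (by fun_prop)
  have h3 := PRFun.comp (prfun_of_partrec (Partrec.nat_iff.1 h2)) h1
  simpa using h3

theorem prfun_trunc : PRFun fun X n => Part.some (trunc X n) := by
  have h1 : PRFun fun X r => Part.some ((Nat.unpair (Nat.unpair r).2).2 +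
      2 ^ (Nat.unpair (Nat.unpair r).2).1 * cond (X (Nat.unpair (Nat.unpair r).2).1) 1 0) :=
    prfun_tot (G := fun X n => cond (X n) 1 0) PRFun.oracle
      (h := fun r => (Nat.unpair (Nat.unpair r).2).1) (by fun_prop)
      (f := fun r b => Part.some ((Nat.unpair (Nat.unpair r).2).2 +
        2 ^ (Nat.unpair (Nat.unpair r).2).1 * b))
      (by fun_prop : Computable fun p : ℕ × ℕ => (Nat.unpair (Nat.unpair p.1).2).2 +
        2 ^ (Nat.unpair (Nat.unpair p.1).2).1 * p.2)
  have h2 := PRFun.comp (PRFun.prec PRFun.zero h1)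
    (prfun_comp (f := fun n => Nat.pair 0 n) (by fun_prop))
  convert h2 using 3 with X n
  simp only [Part.bind_some, Nat.unpair_pair]
  induction n with
  | zero => rfl
  | succ n ih => simp [← ih, trunc]

/-- Stage `r = ⟨n, k⟩` of program `i`: `k` steps on the first `n` bits of the oracle. -/
def stage (i x r τ : ℕ) : Option ℕ :=
  Code.evaln (Nat.unpair r).2 (Denumerable.ofNat Code i)
    (Nat.pair (Nat.pair (Nat.unpair r).1 (τ % 2 ^ (Nat.unpair r).1)) x)

theorem c_stage {α : Type} [Primcodable α] {i x n τ : α → ℕ} (hi : Computable i)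
    (hx : Computable x) (hn : Computable n) (hτ : Computable τ) :
    Computable fun a => stage (i a) (x a) (n a) (τ a) :=
  Code.primrec_evaln.to_comp.comp (g := fun a => (((Nat.unpair (n a)).2,
    Denumerable.ofNat Code (i a)), Nat.pair (Nat.pair (Nat.unpair (n a)).1
      (τ a % 2 ^ (Nat.unpair (n a)).1)) (x a)))
    (((c_snd (c_unpair hn)).pair ((Computable.ofNat Code).comp hi)).pair (by fun_prop))

theorem stage_trunc (i x : ℕ) (X : ℕ → Bool) {r y : ℕ} (h : r ≤ y) :
    stage i x r (trunc X y) = stage i x r (trunc X r) := by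
  unfold stage
  rw [trunc_mod X ((Nat.unpair_left_le r).trans h), trunc_mod X (Nat.unpair_left_le r)]

def cost (i : ℕ) (X : ℕ → Bool) : ℕ →. ℕ := fun x =>
  Nat.rfind fun n => Part.some (stage i x n (trunc X n)).isSome

def prog (i : ℕ) (X : ℕ → Bool) : ℕ →. ℕ := fun x =>
  (cost i X x).map fun n => (stage i x n (trunc X n)).getD 0

theorem mem_cost {i : ℕ} {X : ℕ → Bool} {x y : ℕ} : y ∈ cost i X x ↔
    (stage i x y (trunc X y)).isSome = true ∧ ∀ n < y, (stage i x n (trunc X n)).isSome = false := by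
  refine Nat.mem_rfind.trans ⟨fun h => ⟨(Part.mem_some_iff.1 h.1).symm, fun n hn =>
    (Part.mem_some_iff.1 (h.2 hn)).symm⟩, fun h => ⟨Part.mem_some_iff.2 h.1.symm, fun {n} hn =>
    Part.mem_some_iff.2 (h.2 n hn).symm⟩⟩

theorem prfun_cost : PRFun fun X r => cost (Nat.unpair r).1 X (Nat.unpair r).2 := by
  have h1 := prfun_tot prfun_trunc (h := fun r => (Nat.unpair r).2) (by fun_prop)
    (f := fun r τ => Part.some (cond (stage (Nat.unpair (Nat.unpair r).1).1
      (Nat.unpair (Nat.unpair r).1).2 (Nat.unpair r).2 τ).isSome 0 1))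
    (c_cond (c_isSome (c_stage (by fun_prop) (by fun_prop) (by fun_prop) (by fun_prop)))
      (c_const 0) (c_const 1) : Computable fun p : ℕ × ℕ =>
        cond (stage (Nat.unpair (Nat.unpair p.1).1).1
          (Nat.unpair (Nat.unpair p.1).1).2 (Nat.unpair p.1).2 p.2).isSome 0 1)
  have h2 := PRFun.rfind h1
  convert h2 using 3 with X r
  unfold cost
  congr 1
  funext n
  simp only [Nat.unpair_pair, Part.map_some]
  cases (stage (Nat.unpair r).1 (Nat.unpair r).2 n (trunc X n)).isSome <;> simp

theorem nonempty_relBlum : Nonempty RelBlum := by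
  refine ⟨⟨prog, cost, ?_, ?_, fun _ _ _ => Iff.rfl, ?_⟩⟩
  · have h1 := prfun_tot prfun_trunc (h := fun r => (Nat.unpair r).2) (by fun_prop)
      (f := fun r τ => Part.some ((stage (Nat.unpair (Nat.unpair r).1).1
        (Nat.unpair (Nat.unpair r).1).2 (Nat.unpair r).2 τ).getD 0))
      (c_getD (c_stage (by fun_prop) (by fun_prop) (by fun_prop) (by fun_prop)) (c_const 0) :
        Computable fun p : ℕ × ℕ => (stage (Nat.unpair (Nat.unpair p.1).1).1
          (Nat.unpair (Nat.unpair p.1).1).2 (Nat.unpair p.1).2 p.2).getD 0)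
    have h2 := PRFun.comp h1 (PRFun.pair (prfun_comp Computable.id) prfun_cost)
    convert h2 using 3 with X r
    simp [prog, Part.bind_some_eq_map, Part.map_map, Function.comp_def]
  · intro F hF
    obtain ⟨ψ, hψ, s1, c1⟩ := hF.eff
    have h1 : Partrec fun r => ψ (Nat.unpair (Nat.unpair (Nat.unpair r).2).1)
        (Nat.pair (Nat.unpair r).1 (Nat.unpair (Nat.unpair r).2).2) :=
      hψ.comp (by fun_prop) (by fun_prop)
    obtain ⟨c, hc⟩ := Code.exists_code.1 (Partrec.nat_iff.1 h1)
    refine ⟨fun a => Encodable.encode (Code.curry c a), Computable.encode.comp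
      (Code.primrec₂_curry.to_comp.comp (Computable.const c) Computable.id), fun a X x => ?_⟩
    have key : ∀ n τ, (Code.curry c a).eval (Nat.pair (Nat.pair n τ) x) =
        ψ (n, τ) (Nat.pair a x) := by
      intro n τ; rw [Code.eval_curry, hc]; simp
    have snd : ∀ n v, stage (Encodable.encode (Code.curry c a)) x n (trunc X n) = some v →
        v ∈ F X (Nat.pair a x) := by
      intro n v hv
      rw [stage, Denumerable.ofNat_encode, trunc_mod X (Nat.unpair_left_le n)] at hv
      exact s1 _ _ X _ v (trunc_spec X _).2 (key _ _ ▸ Code.evaln_sound hv)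
    have fwd : ∀ v, v ∈ prog (Encodable.encode (Code.curry c a)) X x → v ∈ F X (Nat.pair a x) := by
      intro v hv
      obtain ⟨n, hn, rfl⟩ := (Part.mem_map_iff _).1 hv
      obtain ⟨r, hr⟩ := Option.isSome_iff_exists.1 (mem_cost.1 hn).1
      rw [hr]; exact snd n r hr
    refine Part.ext fun v => ⟨fwd v, fun hv => ?_⟩
    obtain ⟨n, hn⟩ := (c1 X _ v hv).exists
    have h2 := hn n le_rfl _ (trunc_spec X n).2
    rw [← key] at h2
    obtain ⟨k, hk⟩ := Code.evaln_complete.1 h2
    have h3 : (stage (Encodable.encode (Code.curry c a)) x (Nat.pair n k)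
        (trunc X (Nat.pair n k))).isSome = true := by
      rw [stage, Denumerable.ofNat_encode, trunc_mod X (Nat.unpair_left_le _), Nat.unpair_pair]
      exact Option.isSome_iff_exists.2 ⟨v, hk⟩
    obtain ⟨m, hm, _⟩ := Nat.rfind_min' (p := fun r =>
      (stage (Encodable.encode (Code.curry c a)) x r (trunc X r)).isSome) h3
    have h4 : _ ∈ prog (Encodable.encode (Code.curry c a)) X x := Part.mem_map _ hm
    rwa [Part.mem_unique (fwd _ h4) hv] at h4
  · let b : ℕ → ℕ → Bool := fun r τ =>
      (stage (Nat.unpair r).1 (Nat.unpair (Nat.unpair r).2).1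
        (Nat.unpair (Nat.unpair r).2).2 τ).isSome &&
      !(bfind (fun n => stage (Nat.unpair r).1 (Nat.unpair (Nat.unpair r).2).1 n τ)
        (Nat.unpair (Nat.unpair r).2).2).isSome
    have hb : Computable fun p : ℕ × ℕ => b p.1 p.2 :=
      c_and (c_isSome (c_stage (by fun_prop) (by fun_prop) (by fun_prop) (by fun_prop)))
        (c_not (c_isSome (c_bfind (f := fun (p : ℕ × ℕ) n =>
          stage (Nat.unpair p.1).1 (Nat.unpair (Nat.unpair p.1).2).1 n p.2)
          (c_stage (by fun_prop) (by fun_prop) (by fun_prop) (by fun_prop)) (by fun_prop))))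
    refine ⟨_, prfun_tot prfun_trunc (h := fun r => (Nat.unpair (Nat.unpair r).2).2)
      (by fun_prop) (f := fun r τ => Part.some (cond (b r τ) 1 0))
      (c_cond hb (c_const 1) (c_const 0)), fun i X x y => ?_⟩
    have h1 : b (Nat.pair i (Nat.pair x y)) (trunc X y) = true ↔ y ∈ cost i X x := by
      simp only [b, Nat.unpair_pair, mem_cost, Bool.and_eq_true, Bool.not_eq_true',
        Option.isSome_eq_false_iff, Option.isNone_iff_eq_none, bfind_eq_none]
      refine and_congr Iff.rfl (forall₂_congr fun n hn => ?_)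
      rw [stage_trunc i x X hn.le]
    simp only [Nat.unpair_pair]
    exact ⟨fun h => by rw [h1.2 h]; rfl, fun h => by
      rw [Bool.eq_false_iff.2 fun h2 => h (h1.1 h2)]; rfl⟩

end Pool.Agent.P.MP_0db899_lc
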